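import Pool.Agent.K7.H85.PS.Good2

/-!
# Indices whose projections commute with an operator preserving `D`

Helper file for MP_927f17_an.
-/

set_option autoImplicit false

open Set Filter Topology Cardinal

universe u v

namespace Pool.Agent.K7.H85.PS

variable {𝕜 : Type*} [RCLike 𝕜] {X : Type*} [NormedAddCommGroup X] [NormedSpace 𝕜 X]
  {Γ : Type*} [PartialOrder Γ] {P : Γ → X →L[𝕜] X} {Δ : Set Γ} {K : ℝ}

namespace Sys

variable (S : Sys P Δ K)

include S in
lemma exists_fix_set {Y : Set X} (hY : Y.Countable) (s₀ : Γ) :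
    ∃ s ∈ Δ, s₀ ≤ s ∧ ∀ y ∈ Y, P s y = y := by
  rcases Y.eq_empty_or_nonempty with rfl | hne
  · obtain ⟨s, hs, h⟩ := S.cof s₀
    exact ⟨s, hs, h, by simp⟩
  · obtain ⟨f, rfl⟩ := hY.exists_eq_range hne
    obtain ⟨s, hs, h0, h⟩ := S.exists_fix f s₀
    exact ⟨s, hs, h0, by rintro _ ⟨n, rfl⟩; exact h n⟩

lemma exists_funFix_set {Ψ : Set (X →L[𝕜] 𝕜)} (hc : Ψ.Countable) (h : ∀ ψ ∈ Ψ, ψ ∈ S.D)
    (s₀ : Γ) : ∃ s ∈ Δ, s₀ ≤ s ∧ ∀ ψ ∈ Ψ, ∀ x, ψ (P s x) = ψ x := by
  rcases Ψ.eq_empty_or_nonempty with rfl | hne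
  · obtain ⟨s, hs, h⟩ := S.cof s₀
    exact ⟨s, hs, h, by simp⟩
  · obtain ⟨f, rfl⟩ := hc.exists_eq_range hne
    obtain ⟨s, hs, h0, h⟩ := S.exists_funFix f (fun n => h _ ⟨n, rfl⟩) s₀
    exact ⟨s, hs, h0, by rintro _ ⟨n, rfl⟩; exact h n⟩

lemma comp_mem (ψ : X →L[𝕜] 𝕜) (s : Γ) : ψ ∘L P s ∈ S.D :=
  ⟨s, fun x => congrArg ψ (S.left s s le_rfl x)⟩

/-- The indices in `Δ` whose projections commute with `R`. -/
def _root_.Pool.Agent.K7.H85.PS.commSet (P : Γ → X →L[𝕜] X) (Δ : Set Γ) (R : X →L[𝕜] X) : Set Γ :=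
  {s ∈ Δ | ∀ x, P s (R x) = R (P s x)}

/-- If `R` preserves `D`, then the indices whose projections commute with `R` form again a
system. -/
theorem comm {R : X →L[𝕜] X} (hR : ∀ ψ ∈ S.D, ψ ∘L R ∈ S.D) : Sys P (commSet P Δ R) K where
  bdd s hs := S.bdd s hs.1
  left := S.left
  right := S.right
  sep := S.sep
  dir := S.dir
  cover := S.cover
  cof := by
    have step : ∀ s ∈ Δ, ∃ t ∈ Δ, s ≤ t ∧
        ((∀ x, P t (R (P s x)) = R (P s x)) ∧ ∀ x, P s (R (P t x)) = P s (R x)) := by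
      intro s hs
      obtain ⟨Y, hYc, hY⟩ := S.sep s
      have h1 : (R '' Y).Countable := hYc.image R
      obtain ⟨t₁, ht₁, hst₁, hfix⟩ := S.exists_fix_set h1 s
      choose φ hφn hφ using fun y : X => exists_dual_vector'' 𝕜 y
      have h2 : ((fun y => ((φ y) ∘L P s) ∘L R) '' Y).Countable := hYc.image _
      obtain ⟨t₂, ht₂, hst₂, hfun⟩ := S.exists_funFix_set h2 (by
        rintro _ ⟨y, -, rfl⟩
        exact hR _ (S.comp_mem (φ y) s)) t₁
      refine ⟨t₂, ht₂, hst₁.trans hst₂, ?_, ?_⟩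
      · have hcl : IsClosed {y | P t₂ (R y) = R y} :=
          isClosed_eq ((P t₂).continuous.comp R.continuous) R.continuous
        have hsub : closure Y ⊆ {y | P t₂ (R y) = R y} := by
          refine closure_minimal (fun y hy => ?_) hcl
          exact S.fix_mono hst₂ (hfix _ ⟨y, hy, rfl⟩)
        intro x
        exact hsub (hY ⟨x, rfl⟩)
      · intro x
        rw [← sub_eq_zero, ← map_sub, ← map_sub]
        set z := P s (R (P t₂ x - x)) with hz
        have hzφ : ∀ y ∈ Y, φ y z = 0 := by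
          intro y hy
          have := hfun _ ⟨y, hy, rfl⟩ x
          simp only [ContinuousLinearMap.comp_apply] at this
          rw [hz, map_sub, map_sub, map_sub, this, sub_self]
        have hzY : z ∈ closure Y := hY ⟨_, rfl⟩
        rw [← norm_le_zero_iff]
        refine le_of_forall_pos_le_add fun ε hε => ?_
        obtain ⟨y, hy, hdist⟩ := Metric.mem_closure_iff.1 hzY (ε / 2) (half_pos hε)
        rw [dist_eq_norm] at hdist
        have h3 : ‖y‖ ≤ ‖z - y‖ := by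
          have h4 : ‖(φ y) (z - y)‖ = ‖y‖ := by
            rw [map_sub, hzφ y hy, hφ y, zero_sub, norm_neg, RCLike.norm_ofReal,
              abs_of_nonneg (norm_nonneg y)]
          rw [← h4]
          exact (φ y).le_of_opNorm_le (hφn y) _ |>.trans (by rw [one_mul])
        calc ‖z‖ = ‖(z - y) + y‖ := by rw [sub_add_cancel]
          _ ≤ ‖z - y‖ + ‖y‖ := norm_add_le _ _
          _ ≤ ε / 2 + ε / 2 := add_le_add hdist.le (h3.trans hdist.le)
          _ = 0 + ε := by ring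
    intro s₀
    obtain ⟨s, hm, hs, h0, hΨ⟩ := S.exists_seq (fun _ s t =>
      (∀ x, P t (R (P s x)) = R (P s x)) ∧ ∀ x, P s (R (P t x)) = P s (R x))
      (fun _ s hs => step s hs) s₀
    obtain ⟨t, ht, hle, hlim⟩ := S.sup s hm hs
    refine ⟨t, ⟨ht, fun x => ?_⟩, h0.trans (hle 0)⟩
    have h1 : P t (R (P t x)) = R (P t x) := by
      have e1 : Tendsto (fun n => R (P (s n) x)) atTop (𝓝 (R (P t x))) :=
        (R.continuous.tendsto _).comp (hlim x)
      have e2 : Tendsto (fun n => P t (R (P (s n) x))) atTop (𝓝 (P t (R (P t x)))) :=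
        ((P t).continuous.tendsto _).comp e1
      refine tendsto_nhds_unique e2 (e1.congr fun n => ?_)
      exact (S.fix_mono (hle (n + 1)) ((hΨ n).1 x)).symm
    have h2 : P t (R (P t x)) = P t (R x) := by
      refine tendsto_nhds_unique (hlim (R (P t x))) ((hlim (R x)).congr fun n => ?_)
      rw [← (hΨ n).2 x, ← S.left (s (n + 1)) t (hle _) x, (hΨ n).2]
    rw [← h2, h1]
  sup s hm hs := by
    obtain ⟨t, ht, hle, hlim⟩ := S.sup s hm fun n => (hs n).1
    refine ⟨t, ⟨ht, fun x => ?_⟩, hle, hlim⟩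
    have e1 : Tendsto (fun n => R (P (s n) x)) atTop (𝓝 (R (P t x))) :=
      (R.continuous.tendsto _).comp (hlim x)
    exact tendsto_nhds_unique (hlim (R x)) (e1.congr fun n => ((hs n).2 x).symm)

end Sys

end Pool.Agent.K7.H85.PS
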