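import Mathlib

/-!
# Systems of projections: basic facts

Helper file for MP_927f17_an.
-/

set_option autoImplicit false

open Set Filter Topology Cardinal

universe u v

namespace Pool.Agent.K7.H85.PS

/-! ### Sets of bounded size -/

/-- The set `A` is covered by a family indexed by a type (in the universe `u`) of size at most
`κ`. -/
def Le (κ : Cardinal.{u}) {α : Type*} (A : Set α) : Prop :=
  ∃ (J : Type u) (f : J → α), A ⊆ range f ∧ #J ≤ κ

variable {α β : Type*} {κ κ' : Cardinal.{u}}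

lemma Le.mono {A B : Set α} (h : Le κ B) (hAB : A ⊆ B) : Le κ A := by
  obtain ⟨J, f, hf, hJ⟩ := h
  exact ⟨J, f, hAB.trans hf, hJ⟩

lemma Le.mono_card {A : Set α} (h : Le κ A) (hk : κ ≤ κ') : Le κ' A := by
  obtain ⟨J, f, hf, hJ⟩ := h
  exact ⟨J, f, hf, hJ.trans hk⟩

lemma Le.image {A : Set α} (h : Le κ A) (g : α → β) : Le κ (g '' A) := by
  obtain ⟨J, f, hf, hJ⟩ := h
  refine ⟨J, g ∘ f, ?_, hJ⟩
  rintro _ ⟨a, ha, rfl⟩
  obtain ⟨j, rfl⟩ := hf ha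
  exact ⟨j, rfl⟩

lemma Le.iUnion {ι : Type u} (hκ : ℵ₀ ≤ κ) (hι : #ι ≤ κ) {A : ι → Set α} (h : ∀ i, Le κ (A i)) :
    Le κ (⋃ i, A i) := by
  choose J f hf hJ using h
  refine ⟨Σ i, J i, fun p => f p.1 p.2, ?_, ?_⟩
  · intro a ha
    obtain ⟨i, hi⟩ := mem_iUnion.1 ha
    obtain ⟨j, rfl⟩ := hf i hi
    exact ⟨⟨i, j⟩, rfl⟩
  · rw [mk_sigma]
    calc Cardinal.sum (fun i => #(J i)) ≤ Cardinal.sum (fun _ : ι => κ) :=
          Cardinal.sum_le_sum _ _ hJ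
      _ = #ι * κ := by simp
      _ ≤ κ * κ := by gcongr
      _ = κ := mul_eq_self hκ

lemma Le.union (hκ : ℵ₀ ≤ κ) {A B : Set α} (hA : Le κ A) (hB : Le κ B) : Le κ (A ∪ B) := by
  obtain ⟨J, f, hf, hJ⟩ := hA
  obtain ⟨J', f', hf', hJ'⟩ := hB
  refine ⟨J ⊕ J', Sum.elim f f', ?_, ?_⟩
  · rintro a (ha | ha)
    · obtain ⟨j, rfl⟩ := hf ha
      exact ⟨Sum.inl j, rfl⟩
    · obtain ⟨j, rfl⟩ := hf' ha
      exact ⟨Sum.inr j, rfl⟩
  · simp only [mk_sum, lift_id]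
    exact (add_le_add hJ hJ').trans (add_eq_self hκ).le

lemma Le.image2 (hκ : ℵ₀ ≤ κ) {A : Set α} (hA : Le κ A) (m : α → α → β) :
    Le κ (Set.image2 m A A) := by
  obtain ⟨J, f, hf, hJ⟩ := hA
  refine ⟨J × J, fun p => m (f p.1) (f p.2), ?_, ?_⟩
  · rintro _ ⟨a, ha, b, hb, rfl⟩
    obtain ⟨i, rfl⟩ := hf ha
    obtain ⟨j, rfl⟩ := hf hb
    exact ⟨(i, j), rfl⟩
  · simp only [mk_prod, lift_id]
    exact (mul_le_mul' hJ hJ).trans (mul_eq_self hκ).le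

lemma Le.of_countable (hκ : ℵ₀ ≤ κ) {A : Set α} (hA : A.Countable) : Le κ A := by
  rcases A.eq_empty_or_nonempty with rfl | hne
  · exact ⟨PEmpty, PEmpty.elim, empty_subset _, by simp⟩
  · obtain ⟨f, rfl⟩ := hA.exists_eq_range hne
    refine ⟨ULift ℕ, fun n => f n.down, ?_, by simpa using hκ⟩
    rintro _ ⟨n, rfl⟩
    exact ⟨⟨n⟩, rfl⟩

lemma Le.countable {A : Set α} (h : Le ℵ₀ A) : A.Countable := by
  obtain ⟨J, f, hf, hJ⟩ := h
  have : Countable J := by rwa [← mk_le_aleph0_iff]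
  exact (countable_range f).mono hf

/-! ### Directed hulls -/

/-- The steps of the closure of a set under a binary operation. -/
def hullN (m : α → α → α) (S : Set α) : ℕ → Set α
  | 0 => S
  | n + 1 => hullN m S n ∪ Set.image2 m (hullN m S n) (hullN m S n)

/-- The closure of a set under a binary operation. -/
def hull (m : α → α → α) (S : Set α) : Set α := ⋃ n, hullN m S n

lemma hullN_mono_set (m : α → α → α) {S T : Set α} (h : S ⊆ T) (n : ℕ) :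
    hullN m S n ⊆ hullN m T n := by
  induction n with
  | zero => exact h
  | succ n ih => exact union_subset_union ih (image2_subset ih ih)

lemma hullN_succ (m : α → α → α) (S : Set α) (n : ℕ) : hullN m S n ⊆ hullN m S (n + 1) :=
  subset_union_left

lemma hullN_mono (m : α → α → α) (S : Set α) : Monotone (hullN m S) :=
  monotone_nat_of_le_succ (hullN_succ m S)

lemma hull_mono (m : α → α → α) {S T : Set α} (h : S ⊆ T) : hull m S ⊆ hull m T :=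
  iUnion_mono fun n => hullN_mono_set m h n

lemma subset_hull (m : α → α → α) (S : Set α) : S ⊆ hull m S := subset_iUnion (hullN m S) 0

lemma op_mem_hull (m : α → α → α) {S : Set α} {a b : α} (ha : a ∈ hull m S) (hb : b ∈ hull m S) :
    m a b ∈ hull m S := by
  obtain ⟨i, hi⟩ := mem_iUnion.1 ha
  obtain ⟨j, hj⟩ := mem_iUnion.1 hb
  refine mem_iUnion.2 ⟨max i j + 1, Or.inr ⟨a, ?_, b, ?_, rfl⟩⟩
  · exact hullN_mono m S (le_max_left i j) hi
  · exact hullN_mono m S (le_max_right i j) hj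

lemma hull_subset (m : α → α → α) {S E : Set α} (h : S ⊆ E) (hm : ∀ a ∈ E, ∀ b ∈ E, m a b ∈ E) :
    hull m S ⊆ E := by
  refine iUnion_subset fun n => ?_
  induction n with
  | zero => exact h
  | succ n ih =>
    refine union_subset ih ?_
    rintro _ ⟨a, ha, b, hb, rfl⟩
    exact hm a (ih ha) b (ih hb)

lemma Le.hull (hκ : ℵ₀ ≤ κ) (m : α → α → α) {S : Set α} (h : Le κ S) : Le κ (hull m S) := by
  have h1 : ∀ n, Le κ (hullN m S n) := by
    intro n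
    induction n with
    | zero => exact h
    | succ n ih => exact ih.union hκ (ih.image2 hκ m)
  have h2 : PS.hull m S = ⋃ n : ULift.{u} ℕ, hullN m S n.down := by
    ext a
    simp [PS.hull]
  rw [h2]
  exact Le.iUnion hκ (by simpa using hκ) fun n => h1 n.down

/-! ### Systems of projections -/

variable {𝕜 : Type*} [RCLike 𝕜] {X : Type*} [NormedAddCommGroup X] [NormedSpace 𝕜 X]
  {Γ : Type*} [PartialOrder Γ]

/-- A uniformly bounded system of projections, with a cofinal and countably closed set `Δ` of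
indices. -/
structure Sys (P : Γ → X →L[𝕜] X) (Δ : Set Γ) (K : ℝ) : Prop where
  bdd : ∀ s ∈ Δ, ‖P s‖ ≤ K
  left : ∀ s t, s ≤ t → ∀ x, P s (P t x) = P s x
  right : ∀ s t, s ≤ t → ∀ x, P t (P s x) = P s x
  sep : ∀ s, TopologicalSpace.IsSeparable (range (P s))
  cof : ∀ s : Γ, ∃ t ∈ Δ, s ≤ t
  dir : ∀ s t : Γ, ∃ r, s ≤ r ∧ t ≤ r
  cover : ∀ x, ∃ s, P s x = x
  sup : ∀ s : ℕ → Γ, Monotone s → (∀ n, s n ∈ Δ) → ∃ t ∈ Δ, (∀ n, s n ≤ t) ∧
    ∀ x, Tendsto (fun n => P (s n) x) atTop (𝓝 (P t x))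

/-- A nonempty directed subset of `Δ`. -/
structure Dir (Δ A : Set Γ) : Prop where
  ne : A.Nonempty
  dir : ∀ s ∈ A, ∀ t ∈ A, ∃ r ∈ A, s ≤ r ∧ t ≤ r
  sub : A ⊆ Δ

variable {P : Γ → X →L[𝕜] X} {Δ : Set Γ} {K : ℝ}

namespace Sys

variable (S : Sys P Δ K)
include S

lemma K_nonneg (hne : Nonempty Γ) : 0 ≤ K := by
  obtain ⟨s⟩ := hne
  obtain ⟨t, ht, -⟩ := S.cof s
  exact (norm_nonneg _).trans (S.bdd t ht)

/-- An increasing sequence in `Δ` with prescribed successive relations. -/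
lemma exists_seq (Ψ : ℕ → Γ → Γ → Prop) (h : ∀ n, ∀ s ∈ Δ, ∃ t ∈ Δ, s ≤ t ∧ Ψ n s t) (s₀ : Γ) :
    ∃ s : ℕ → Γ, Monotone s ∧ (∀ n, s n ∈ Δ) ∧ s₀ ≤ s 0 ∧ ∀ n, Ψ n (s n) (s (n + 1)) := by
  obtain ⟨t₀, ht₀, hst⟩ := S.cof s₀
  choose! g hg hle hΨ using h
  let s : ℕ → Γ := fun n => Nat.rec t₀ (fun k r => g k r) n
  have hs : ∀ n, s n ∈ Δ := by
    intro n
    induction n with
    | zero => exact ht₀
    | succ n ih => exact hg n _ ih
  exact ⟨s, monotone_nat_of_le_succ fun n => hle n _ (hs n), hs, hst, fun n => hΨ n _ (hs n)⟩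

/-- Countably many upward closed conditions can be satisfied at the same time. -/
lemma exists_all (Φ : ℕ → Γ → Prop) (up : ∀ n s t, s ≤ t → Φ n s → Φ n t)
    (ex : ∀ n, ∃ s, Φ n s) (s₀ : Γ) : ∃ s ∈ Δ, s₀ ≤ s ∧ ∀ n, Φ n s := by
  obtain ⟨s, hm, hs, h0, hΦ⟩ := S.exists_seq (fun n _ t => Φ n t) (fun n s hs => by
    obtain ⟨t, ht⟩ := ex n
    obtain ⟨r, h1, h2⟩ := S.dir s t
    obtain ⟨q, hq, h3⟩ := S.cof r
    exact ⟨q, hq, h1.trans h3, up n t q (h2.trans h3) ht⟩) s₀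
  obtain ⟨t, ht, hle, -⟩ := S.sup s hm hs
  exact ⟨t, ht, h0.trans (hle 0), fun n => up n _ _ (hle (n + 1)) (hΦ n)⟩

lemma fix_mono {s t : Γ} (h : s ≤ t) {x : X} (hx : P s x = x) : P t x = x := by
  have := S.right s t h x
  rwa [hx] at this

lemma funFix_mono {s t : Γ} (h : s ≤ t) {ψ : X →L[𝕜] 𝕜} (hψ : ∀ x, ψ (P s x) = ψ x) (x : X) :
    ψ (P t x) = ψ x := by
  rw [← hψ (P t x), S.left s t h x, hψ]

/-- A countable set of points is in the range of a single projection. -/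
lemma exists_fix (x : ℕ → X) (s₀ : Γ) : ∃ s ∈ Δ, s₀ ≤ s ∧ ∀ n, P s (x n) = x n :=
  S.exists_all (fun n s => P s (x n) = x n) (fun _ _ _ h hx => S.fix_mono h hx)
    (fun n => S.cover (x n)) s₀

/-- A countable set of functionals of `D` is fixed by a single projection. -/
lemma exists_funFix (ψ : ℕ → X →L[𝕜] 𝕜) (hψ : ∀ n, ∃ s, ∀ x, ψ n (P s x) = ψ n x) (s₀ : Γ) :
    ∃ s ∈ Δ, s₀ ≤ s ∧ ∀ n x, ψ n (P s x) = ψ n x :=
  S.exists_all (fun n s => ∀ x, ψ n (P s x) = ψ n x) (fun _ _ _ h hx => S.funFix_mono h hx) hψ s₀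

lemma exists_upper {C : Set Γ} (hC : C.Countable) (s₀ : Γ) :
    ∃ s ∈ Δ, s₀ ≤ s ∧ ∀ c ∈ C, c ≤ s := by
  rcases C.eq_empty_or_nonempty with rfl | hne
  · obtain ⟨t, ht, hle⟩ := S.cof s₀
    exact ⟨t, ht, hle, by simp⟩
  · obtain ⟨f, rfl⟩ := hC.exists_eq_range hne
    obtain ⟨s, hs, h0, h⟩ := S.exists_all (fun n s => f n ≤ s) (fun n s t h1 h2 => h2.trans h1)
      (fun n => ⟨f n, le_rfl⟩) s₀
    exact ⟨s, hs, h0, by rintro _ ⟨n, rfl⟩; exact h n⟩

end Sys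

/-! ### Directed sets -/

lemma exists_op {E : Set Γ} (h : ∀ s ∈ E, ∀ t ∈ E, ∃ r ∈ E, s ≤ r ∧ t ≤ r) :
    ∃ m : Γ → Γ → Γ, ∀ s ∈ E, ∀ t ∈ E, m s t ∈ E ∧ s ≤ m s t ∧ t ≤ m s t := by
  choose! m hm using h
  exact ⟨m, fun s hs t ht => ⟨(hm s hs t ht).1, (hm s hs t ht).2.1, (hm s hs t ht).2.2⟩⟩

lemma dir_hull {E : Set Γ} {m : Γ → Γ → Γ}
    (hm : ∀ s ∈ E, ∀ t ∈ E, m s t ∈ E ∧ s ≤ m s t ∧ t ≤ m s t) {S : Set Γ} (hS : S ⊆ E)
    (hne : S.Nonempty) : Dir E (hull m S) := by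
  have hsub : hull m S ⊆ E := hull_subset m hS fun a ha b hb => (hm a ha b hb).1
  refine ⟨hne.mono (subset_hull m S), fun s hs t ht => ⟨m s t, op_mem_hull m hs ht, ?_⟩, hsub⟩
  exact (hm s (hsub hs) t (hsub ht)).2

lemma Sys.exists_op (S : Sys P Δ K) :
    ∃ m : Γ → Γ → Γ, ∀ s ∈ Δ, ∀ t ∈ Δ, m s t ∈ Δ ∧ s ≤ m s t ∧ t ≤ m s t :=
  PS.exists_op fun s _ t _ => by
    obtain ⟨r, h1, h2⟩ := S.dir s t
    obtain ⟨q, hq, h3⟩ := S.cof r
    exact ⟨q, hq, h1.trans h3, h2.trans h3⟩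

/-- The limit of the projections of a directed set. -/
def IsLim (P : Γ → X →L[𝕜] X) (A : Set Γ) (Q : X →L[𝕜] X) : Prop :=
  ∀ x, ∀ ε > 0, ∃ s ∈ A, ∀ t ∈ A, s ≤ t → ‖P t x - Q x‖ < ε

theorem Sys.exists_lim [CompleteSpace X] (S : Sys P Δ K) {A : Set Γ} (hA : Dir Δ A) :
    ∃ Q, IsLim P A Q := by
  classical
  -- the net is Cauchy
  have hC : ∀ x, ∀ ε > 0, ∃ s ∈ A, ∀ t ∈ A, s ≤ t → ‖P t x - P s x‖ < ε := by
    intro x ε hε
    by_contra hcon
    push Not at hcon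
    choose! g hg hle hge using hcon
    obtain ⟨a₀, ha₀⟩ := hA.ne
    let s : ℕ → Γ := fun n => Nat.rec a₀ (fun _ r => g r) n
    have hs : ∀ n, s n ∈ A := by
      intro n
      induction n with
      | zero => exact ha₀
      | succ n ih => exact hg _ ih
    have hm : Monotone s := monotone_nat_of_le_succ fun n => hle _ (hs n)
    obtain ⟨t, -, -, hlim⟩ := S.sup s hm fun n => hA.sub (hs n)
    have h1 := hlim x
    have h2 : Tendsto (fun n => P (s (n + 1)) x) atTop (𝓝 (P t x)) :=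
      (tendsto_add_atTop_iff_nat (f := fun n => P (s n) x) 1).2 h1
    have h3 : Tendsto (fun n => ‖P (s (n + 1)) x - P (s n) x‖) atTop (𝓝 0) := by
      have := (h2.sub h1).norm
      simpa using this
    have h4 := (h3.eventually (gt_mem_nhds hε)).exists
    obtain ⟨n, hn⟩ := h4
    exact absurd hn (not_lt.2 (hge _ (hs n)))
  have : Nonempty A := hA.ne.to_subtype
  have : IsDirected A (· ≤ ·) := ⟨fun a b => by
    obtain ⟨r, hr, h1, h2⟩ := hA.dir a a.2 b b.2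
    exact ⟨⟨r, hr⟩, h1, h2⟩⟩
  have hcau : ∀ x, ∃ y, Tendsto (fun s : A => P s x) atTop (𝓝 y) := by
    intro x
    apply CompleteSpace.complete
    rw [Metric.cauchy_iff]
    refine ⟨map_neBot, fun ε hε => ?_⟩
    obtain ⟨s, hs, h⟩ := hC x (ε / 2) (half_pos hε)
    refine ⟨(fun s : A => P s x) '' Ici ⟨s, hs⟩, image_mem_map (Ici_mem_atTop _), ?_⟩
    rintro _ ⟨a, ha, rfl⟩ _ ⟨b, hb, rfl⟩
    have h1 := h a a.2 ha
    have h2 := h b b.2 hb
    rw [dist_eq_norm]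
    calc ‖P a x - P b x‖ = ‖(P a x - P s x) - (P b x - P s x)‖ := by congr 1; abel
      _ ≤ ‖P a x - P s x‖ + ‖P b x - P s x‖ := norm_sub_le _ _
      _ < ε / 2 + ε / 2 := add_lt_add h1 h2
      _ = ε := add_halves ε
  choose q hq using hcau
  let L : X →ₗ[𝕜] X :=
    { toFun := q
      map_add' := fun x y => by
        refine tendsto_nhds_unique (hq (x + y)) ?_
        simpa using (hq x).add (hq y)
      map_smul' := fun c x => by
        refine tendsto_nhds_unique (hq (c • x)) ?_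
        simpa using (hq x).const_smul c }
  refine ⟨L.mkContinuous K fun x => ?_, ?_⟩
  · refine le_of_tendsto (hq x).norm (Eventually.of_forall fun s => ?_)
    exact (P s).le_of_opNorm_le (S.bdd s (hA.sub s.2)) x
  · intro x ε hε
    have h1 := (hq x).eventually (Metric.ball_mem_nhds (q x) hε)
    obtain ⟨a, ha⟩ := eventually_atTop.1 h1
    exact ⟨a, a.2, fun t ht hat => by
      have := ha ⟨t, ht⟩ hat
      rwa [dist_eq_norm] at this⟩

end Pool.Agent.K7.H85.PS
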