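import Pool.Agent.K7.H85.PS.Comm

/-!
# Decomposition of a projection into projections of smaller density

Helper file for MP_927f17_an.
-/

set_option autoImplicit false
set_option linter.unusedSectionVars false

open Set Filter Topology Cardinal

universe u v

namespace Pool.Agent.K7.H85.PS

section hulls

variable {Γ : Type*} {I : Type*} [LinearOrder I] (m : Γ → Γ → Γ) (A₀ : Set Γ) (p : I → Γ)

/-- The directed hull belonging to a set of positions. -/
def AL (L : Set I) : Set Γ := hull m (A₀ ∪ p '' L)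

lemma AL_mono {L L' : Set I} (h : L ⊆ L') : AL m A₀ p L ⊆ AL m A₀ p L' :=
  hull_mono m (union_subset_union_right _ (image_mono h))

lemma AL_union {W : Set I} (hW : W.Nonempty) {s : Γ} (hs : s ∈ AL m A₀ p (⋃ j ∈ W, Iic j)) :
    ∃ j ∈ W, s ∈ AL m A₀ p (Iic j) := by
  obtain ⟨n, hn⟩ := mem_iUnion.1 hs
  have key : ∀ n s, s ∈ hullN m (A₀ ∪ p '' (⋃ j ∈ W, Iic j)) n →
      ∃ j ∈ W, s ∈ hullN m (A₀ ∪ p '' (Iic j)) n := by
    intro n
    induction n with
    | zero =>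
      rintro s (hs | ⟨i, hi, rfl⟩)
      · obtain ⟨j, hj⟩ := hW
        exact ⟨j, hj, Or.inl hs⟩
      · obtain ⟨j, hj, hij⟩ := mem_iUnion₂.1 hi
        exact ⟨j, hj, Or.inr ⟨i, hij, rfl⟩⟩
    | succ n ih =>
      rintro s (hs | ⟨a, ha, b, hb, rfl⟩)
      · obtain ⟨j, hj, h⟩ := ih s hs
        exact ⟨j, hj, Or.inl h⟩
      · obtain ⟨i, hi, h1⟩ := ih a ha
        obtain ⟨j, hj, h2⟩ := ih b hb
        have hmono : ∀ {i j : I}, i ≤ j → ∀ n,
            hullN m (A₀ ∪ p '' (Iic i)) n ⊆ hullN m (A₀ ∪ p '' (Iic j)) n := fun {i j} hij n =>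
          hullN_mono_set m (union_subset_union_right _ (image_mono (Iic_subset_Iic.2 hij))) n
        rcases le_total i j with hij | hij
        · exact ⟨j, hj, Or.inr ⟨a, hmono hij n h1, b, h2, rfl⟩⟩
        · exact ⟨i, hi, Or.inr ⟨a, h1, b, hmono hij n h2, rfl⟩⟩
  obtain ⟨j, hj, h⟩ := key n s hn
  exact ⟨j, hj, mem_iUnion.2 ⟨n, h⟩⟩

end hulls

variable {𝕜 : Type*} [RCLike 𝕜] {X : Type*} [NormedAddCommGroup X] [NormedSpace 𝕜 X]
  [CompleteSpace X] {Γ : Type*} [PartialOrder Γ] {P : Γ → X →L[𝕜] X} {Δ : Set Γ} {K : ℝ}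
  {I : Type*} [LinearOrder I]

/-- The data of the decomposition. -/
structure Setup (P : Γ → X →L[𝕜] X) (Δ : Set Γ) (K : ℝ) (R : X →L[𝕜] X) (m : Γ → Γ → Γ)
    (A₀ : Set Γ) (p : I → Γ) : Prop where
  S : Sys P Δ K
  op : ∀ s ∈ Δ, ∀ t ∈ Δ, m s t ∈ Δ ∧ s ≤ m s t ∧ t ≤ m s t
  ne : A₀.Nonempty
  sub : A₀ ⊆ Δ
  pΔ : ∀ i, p i ∈ Δ
  comm : ∀ s ∈ Δ, ∀ x, P s (R x) = R (P s x)
  idem : ∀ x, R (R x) = R x
  full : ∀ x, lim P (AL m A₀ p univ) (R x) = R x

variable {R : X →L[𝕜] X} {m : Γ → Γ → Γ} {A₀ : Set Γ} {p : I → Γ}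

/-- The pieces of the decomposition. -/
noncomputable def E (P : Γ → X →L[𝕜] X) (R : X →L[𝕜] X) (m : Γ → Γ → Γ) (A₀ : Set Γ)
    (p : I → Γ) (i : I) : X →L[𝕜] X :=
  (lim P (AL m A₀ p (Iic i)) - lim P (AL m A₀ p (Iio i))) ∘L R

/-- The first piece of the decomposition. -/
noncomputable def E0 (P : Γ → X →L[𝕜] X) (R : X →L[𝕜] X) (m : Γ → Γ → Γ) (A₀ : Set Γ)
    (p : I → Γ) : X →L[𝕜] X :=
  lim P (AL m A₀ p ∅) ∘L R

lemma E_apply (i : I) (x : X) : E P R m A₀ p i x =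
    lim P (AL m A₀ p (Iic i)) (R x) - lim P (AL m A₀ p (Iio i)) (R x) := rfl

lemma E0_apply (x : X) : E0 P R m A₀ p x = lim P (AL m A₀ p ∅) (R x) := rfl

namespace Setup

variable (U : Setup P Δ K R m A₀ p)
include U

lemma dir (L : Set I) : Dir Δ (AL m A₀ p L) :=
  dir_hull U.op (union_subset U.sub (by rintro _ ⟨i, -, rfl⟩; exact U.pΔ i))
    (U.ne.mono subset_union_left)

lemma lim_comm (L : Set I) (x : X) :
    lim P (AL m A₀ p L) (R x) = R (lim P (AL m A₀ p L) x) :=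
  U.S.lim_comm (U.dir L) (fun s hs => U.comm s ((U.dir L).sub hs)) x

lemma lim_sub {L L' : Set I} (h : L ⊆ L') (x : X) :
    lim P (AL m A₀ p L) (lim P (AL m A₀ p L') x) = lim P (AL m A₀ p L) x :=
  U.S.lim_lim_of_subset (U.dir L) (U.dir L') (AL_mono m A₀ p h) x

lemma lim_sup {L L' : Set I} (h : L ⊆ L') (x : X) :
    lim P (AL m A₀ p L') (lim P (AL m A₀ p L) x) = lim P (AL m A₀ p L) x :=
  U.S.lim_lim_of_superset (U.dir L) (U.dir L') (AL_mono m A₀ p h) x

lemma near {W : Set I} (hW : W.Nonempty) (x : X) {ε : ℝ} (hε : 0 < ε) :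
    ∃ j ∈ W, ‖lim P (AL m A₀ p (Iic j)) x - lim P (AL m A₀ p (⋃ j ∈ W, Iic j)) x‖ ≤ ε := by
  obtain ⟨s, hs, h⟩ := U.S.lim_near (U.dir (⋃ j ∈ W, Iic j)) x hε
  obtain ⟨j, hj, hsj⟩ := AL_union m A₀ p hW hs
  exact ⟨j, hj, h _ (U.dir _) (AL_mono m A₀ p (subset_biUnion_of_mem (u := fun j => Iic j) hj)) hsj⟩

lemma mem_closed {W : Set I} (hW : W.Nonempty) {Z : Submodule 𝕜 X} (hZ : IsClosed (Z : Set X))
    {x : X} (h : ∀ j ∈ W, lim P (AL m A₀ p (Iic j)) x ∈ Z) :
    lim P (AL m A₀ p (⋃ j ∈ W, Iic j)) x ∈ Z := by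
  have : lim P (AL m A₀ p (⋃ j ∈ W, Iic j)) x ∈ closure (Z : Set X) := by
    rw [Metric.mem_closure_iff]
    intro ε hε
    obtain ⟨j, hj, hle⟩ := U.near hW x (half_pos hε)
    refine ⟨_, h j hj, ?_⟩
    rw [dist_comm, dist_eq_norm]
    exact hle.trans_lt (half_lt_self hε)
  rwa [hZ.closure_eq] at this

lemma E_idem (i : I) (x : X) : E P R m A₀ p i (E P R m A₀ p i x) = E P R m A₀ p i x := by
  have h : Iio i ⊆ Iic i := Iio_subset_Iic_self
  simp only [E_apply, map_sub, ← U.lim_comm, U.idem]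
  simp only [U.lim_sub h, U.lim_sup h, U.lim_sub Subset.rfl]
  abel

lemma E0_idem (x : X) : E0 P R m A₀ p (E0 P R m A₀ p x) = E0 P R m A₀ p x := by
  simp only [E0_apply, ← U.lim_comm, U.idem]
  simp only [U.lim_sub Subset.rfl]

lemma E_E {i j : I} (hij : i < j) (x : X) : E P R m A₀ p j (E P R m A₀ p i x) = 0 := by
  have h1 : Iio i ⊆ Iic j := fun k hk => (le_of_lt hk).trans hij.le
  have h2 : Iic i ⊆ Iic j := fun k hk => le_trans hk hij.le
  have h3 : Iio i ⊆ Iio j := fun k hk => lt_trans hk hij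
  have h4 : Iic i ⊆ Iio j := fun k hk => lt_of_le_of_lt hk hij
  simp only [E_apply, map_sub, ← U.lim_comm, U.idem]
  simp only [U.lim_sup h1, U.lim_sup h2, U.lim_sup h3, U.lim_sup h4]
  abel

lemma R_E (i : I) (x : X) : R (E P R m A₀ p i x) = E P R m A₀ p i x := by
  simp only [E_apply, map_sub, ← U.lim_comm, U.idem]

lemma R_E0 (x : X) : R (E0 P R m A₀ p x) = E0 P R m A₀ p x := by
  simp only [E0_apply, ← U.lim_comm, U.idem]

/-- A vector all of whose components are in a closed subspace. -/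
theorem mem_of_pieces [WellFoundedLT I] [Nonempty I] {Z : Submodule 𝕜 X}
    (hZ : IsClosed (Z : Set X)) {z : X}
    (h0 : E0 P R m A₀ p z ∈ Z) (h : ∀ i, E P R m A₀ p i z ∈ Z) : R z ∈ Z := by
  have key : ∀ i : I, lim P (AL m A₀ p (Iio i)) (R z) ∈ Z := by
    intro i
    induction i using WellFoundedLT.induction with
    | ind i ih =>
      rcases (Iio i).eq_empty_or_nonempty with he | hne
      · rw [he]
        exact h0
      · have hU : Iio i = ⋃ j ∈ Iio i, Iic j := by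
          ext k
          simp only [mem_iUnion, mem_Iio, mem_Iic, exists_prop]
          exact ⟨fun hk => ⟨k, hk, le_rfl⟩, fun ⟨j, hj, hkj⟩ => lt_of_le_of_lt hkj hj⟩
        rw [hU]
        refine U.mem_closed hne hZ fun j hj => ?_
        have := Z.add_mem (ih j hj) (h j)
        rwa [E_apply, add_sub_cancel] at this
  rw [← U.full z]
  have hU : (univ : Set I) = ⋃ j ∈ (univ : Set I), Iic j := by
    ext k
    simp only [mem_univ, mem_iUnion, mem_Iic, exists_prop, true_and, true_iff]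
    exact ⟨k, le_rfl⟩
  rw [hU]
  refine U.mem_closed univ_nonempty hZ fun j _ => ?_
  have := Z.add_mem (key j) (h j)
  rwa [E_apply, add_sub_cancel] at this

/-- The supports are countable. -/
theorem countable_support [WellFoundedLT I] {d : X →L[𝕜] 𝕜} (hdR : ∀ x, d (R x) = d x)
    (hD : d ∈ U.S.D)
    (hgood : ∀ i L, L ⊆ Iio i → ∀ ψ ∈ U.S.D, ψ ∘L lim P (AL m A₀ p L) ∈ U.S.D) :
    {i | ∃ x, d (E P R m A₀ p i x) ≠ 0}.Countable := by
  set V : Set I := {i | ∃ x, d (E P R m A₀ p i x) ≠ 0} with hV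
  by_contra hcon
  -- a minimal uncountable initial part
  obtain ⟨W, hWV, hWc, hWj, hWD⟩ : ∃ W ⊆ V, ¬ W.Countable ∧ (∀ j ∈ W, (W ∩ Iio j).Countable) ∧
      d ∘L lim P (AL m A₀ p (⋃ j ∈ W, Iic j)) ∈ U.S.D := by
    by_cases hex : ∃ i, ¬ (V ∩ Iio i).Countable
    · obtain ⟨i, hi, hmin⟩ := (wellFounded_lt (α := I)).has_min
        {i | ¬ (V ∩ Iio i).Countable} hex
      refine ⟨V ∩ Iio i, inter_subset_left, hi, fun j hj => ?_, ?_⟩
      · by_contra hno
        refine hmin j ?_ hj.2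
        change ¬ (V ∩ Iio j).Countable
        intro hc
        have hsub : V ∩ Iio i ∩ Iio j ⊆ V ∩ Iio j := fun k hk => ⟨hk.1.1, hk.2⟩
        exact hno (hc.mono hsub)
      · refine hgood i _ ?_ d hD
        intro k hk
        obtain ⟨j, hj, hkj⟩ := mem_iUnion₂.1 hk
        exact lt_of_le_of_lt hkj hj.2
    · push Not at hex
      refine ⟨V, Subset.rfl, hcon, fun j _ => hex j, ?_⟩
      have hcof : (⋃ j ∈ V, Iic j) = Set.univ := by
        rw [eq_univ_iff_forall]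
        intro i
        by_contra hno
        apply hcon
        have hsub : V ⊆ V ∩ Iio i := by
          intro j hj
          refine ⟨hj, ?_⟩
          by_contra hji
          exact hno (mem_iUnion₂.2 ⟨j, hj, not_lt.1 hji⟩)
        exact (hex i).mono hsub
      have : d ∘L lim P (AL m A₀ p (⋃ j ∈ V, Iic j)) = d := by
        ext x
        rw [hcof, ContinuousLinearMap.comp_apply, ← hdR, ← U.lim_comm, U.full, hdR]
      rw [this]
      exact hD
  set L : Set I := ⋃ j ∈ W, Iic j with hL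
  set d' : X →L[𝕜] 𝕜 := d ∘L lim P (AL m A₀ p L) with hd'
  have hWne : W.Nonempty := by
    rw [nonempty_iff_ne_empty]
    rintro rfl
    exact hWc countable_empty
  have hfix : ∀ x, d' (lim P (AL m A₀ p L) x) = d' x := fun x => by
    simp only [hd', ContinuousLinearMap.comp_apply]
    rw [U.S.lim_idem (U.dir L)]
  obtain ⟨C, hCL, hCc, hC, hCfix⟩ := U.S.exists_countable (U.dir L) hWD hfix
  have hpos : ∀ c : C, ∃ j ∈ W, (c : Γ) ∈ AL m A₀ p (Iic j) := fun c =>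
    AL_union m A₀ p hWne (hCL c.2)
  choose j hjW hj using hpos
  obtain ⟨i, hiW, hi⟩ : ∃ i ∈ W, ∀ c, j c < i := by
    by_contra hno
    push Not at hno
    apply hWc
    have : Countable C := hCc.to_subtype
    refine (countable_iUnion fun c => (((hWj (j c) (hjW c)).insert (j c)))).mono ?_
    intro i hi
    obtain ⟨c, hc⟩ := hno i hi
    refine mem_iUnion.2 ⟨c, ?_⟩
    rcases hc.eq_or_lt with h | h
    · exact Or.inl h
    · exact Or.inr ⟨hi, h⟩
  have hCio : C ⊆ AL m A₀ p (Iio i) := fun c hc =>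
    AL_mono m A₀ p (fun k hk => lt_of_le_of_lt hk (hi ⟨c, hc⟩)) (hj ⟨c, hc⟩)
  have hCic : C ⊆ AL m A₀ p (Iic i) := hCio.trans (AL_mono m A₀ p Iio_subset_Iic_self)
  have e1 : ∀ x, d' (lim P (AL m A₀ p (Iio i)) x) = d' x := fun x => by
    rw [← hCfix, U.S.lim_lim_of_subset hC (U.dir _) hCio, hCfix]
  have e2 : ∀ x, d' (lim P (AL m A₀ p (Iic i)) x) = d' x := fun x => by
    rw [← hCfix, U.S.lim_lim_of_subset hC (U.dir _) hCic, hCfix]
  obtain ⟨x, hx⟩ := hWV hiW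
  apply hx
  have hiL : Iic i ⊆ L := subset_biUnion_of_mem (u := fun j => Iic j) hiW
  have hiL' : Iio i ⊆ L := Iio_subset_Iic_self.trans hiL
  have e3 : d' (E P R m A₀ p i x) = d (E P R m A₀ p i x) := by
    simp only [hd', ContinuousLinearMap.comp_apply, E_apply, map_sub]
    rw [U.lim_sup hiL, U.lim_sup hiL']
  rw [← e3, E_apply, map_sub, e1, e2, sub_self]

end Setup

end Pool.Agent.K7.H85.PS
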