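import Pool.Agent.K7.H85.PS.Lim

/-!
# Finite codimension: large directed sets preserve `D`

Helper file for MP_927f17_an.
-/

set_option autoImplicit false

open Set Filter Topology Cardinal

universe u v

namespace Pool.Agent.K7.H85.PS

lemma exists_wo (κ : Cardinal.{u}) : ∃ (I : Type u) (_ : LinearOrder I) (_ : WellFoundedLT I),
    #I = κ ∧ ∀ i : I, #(Iio i) < κ :=
  ⟨κ.ord.ToType, inferInstance, inferInstance, by simp, fun i => by simpa using mk_Iio_lt i⟩

variable {𝕜 : Type*} [RCLike 𝕜] {X : Type*} [NormedAddCommGroup X] [NormedSpace 𝕜 X]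
  {Γ : Type*} [PartialOrder Γ] {P : Γ → X →L[𝕜] X} {Δ : Set Γ} {K : ℝ}

/-- The functionals fixed by a projection of the system. -/
def InD (P : Γ → X →L[𝕜] X) (ψ : X →L[𝕜] 𝕜) : Prop := ∃ s, ∀ x, ψ (P s x) = ψ x

namespace Sys

variable (S : Sys P Δ K)

/-- The subspace induced by the system. -/
def D : Submodule 𝕜 (X →L[𝕜] 𝕜) where
  carrier := {ψ | InD P ψ}
  zero_mem' := by
    obtain ⟨s, -⟩ := S.cover 0
    exact ⟨s, fun x => rfl⟩
  add_mem' := by
    rintro φ ψ ⟨s, hs⟩ ⟨t, ht⟩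
    obtain ⟨r, h1, h2⟩ := S.dir s t
    refine ⟨r, fun x => ?_⟩
    rw [add_apply, add_apply, S.funFix_mono h1 hs,
      S.funFix_mono h2 ht]
  smul_mem' := by
    rintro c ψ ⟨s, hs⟩
    exact ⟨s, fun x => by simp [hs x]⟩

lemma mem_D {ψ : X →L[𝕜] 𝕜} : ψ ∈ S.D ↔ ∃ s, ∀ x, ψ (P s x) = ψ x := Iff.rfl

/-- The functionals fixed by an operator. -/
def _root_.Pool.Agent.K7.H85.PS.fixed (Q : X →L[𝕜] X) : Submodule 𝕜 (X →L[𝕜] 𝕜) where
  carrier := {ψ | ∀ x, ψ (Q x) = ψ x}
  zero_mem' := fun x => rfl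
  add_mem' := fun {φ ψ} h1 h2 x => by
    rw [add_apply, add_apply, h1 x, h2 x]
  smul_mem' := fun c ψ h x => by simp [h x]

lemma _root_.Pool.Agent.K7.H85.PS.mem_fixed {Q : X →L[𝕜] X} {ψ : X →L[𝕜] 𝕜} :
    ψ ∈ fixed Q ↔ ∀ x, ψ (Q x) = ψ x := Iff.rfl

variable [CompleteSpace X]

include S in
lemma fixed_mono {A B : Set Γ} (hA : Dir Δ A) (hB : Dir Δ B) (h : A ⊆ B) :
    fixed (lim P A) ≤ fixed (lim P B) := by
  intro ψ hψ x
  rw [← hψ (lim P B x), S.lim_lim_of_subset hA hB h, hψ]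

/-- A maximizer of a bounded function. -/
lemma _root_.Pool.Agent.K7.H85.PS.exists_maximizer {α : Type*} (p : α → Prop) (f : α → ℕ) (N : ℕ)
    (hN : ∀ a, f a ≤ N) (hne : ∃ a, p a) : ∃ a, p a ∧ ∀ b, p b → f b ≤ f a := by
  obtain ⟨a, ha, h⟩ := (measure fun a => N - f a).wf.has_min {a | p a} hne
  refine ⟨a, ha, fun b hb => ?_⟩
  have h1 : ¬ (N - f b < N - f a) := h b hb
  have := hN a
  have := hN b
  omega

lemma _root_.Pool.Agent.K7.H85.PS.exists_minimizer {α : Type*} (p : α → Prop) (f : α → ℕ)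
    (hne : ∃ a, p a) : ∃ a, p a ∧ ∀ b, p b → f a ≤ f b := by
  obtain ⟨a, ha, h⟩ := (measure f).wf.has_min {a | p a} hne
  exact ⟨a, ha, fun b hb => not_lt.1 (h b hb)⟩

/-- Step V: modulo `D`, all functionals live on the range of the limit projection of a directed set
of size at most `ℵ₁`. -/
theorem exists_full (hfin : FiniteDimensional 𝕜 ((X →L[𝕜] 𝕜) ⧸ S.D)) :
    ∃ A, Dir Δ A ∧ Le.{u} ℵ₁ A ∧ Submodule.map S.D.mkQ (fixed (lim P A)) = ⊤ := by
  obtain ⟨m, hm⟩ := S.exists_op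
  have h0 : (ℵ₀ : Cardinal.{u}) ≤ ℵ₁ := aleph0_le_aleph 1
  obtain ⟨s₀, -⟩ := S.cover 0
  obtain ⟨t₀, ht₀, -⟩ := S.cof s₀
  obtain ⟨A, ⟨hA, hAle⟩, hmax⟩ := exists_maximizer (fun A : Set Γ => Dir Δ A ∧ Le.{u} ℵ₁ A)
    (fun A => Module.finrank 𝕜 (Submodule.map S.D.mkQ (fixed (lim P A))))
    (Module.finrank 𝕜 ((X →L[𝕜] 𝕜) ⧸ S.D)) (fun A => Submodule.finrank_le _)
    ⟨{t₀}, ⟨singleton_nonempty _, by
      rintro s rfl t rfl
      exact ⟨_, rfl, le_rfl, le_rfl⟩, by simpa using ht₀⟩,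
      Le.of_countable h0 (countable_singleton t₀)⟩
  refine ⟨A, hA, hAle, ?_⟩
  by_contra hcon
  obtain ⟨v, -, hv⟩ := SetLike.exists_of_lt (lt_top_iff_ne_top.2 hcon)
  obtain ⟨φ, rfl⟩ := S.D.mkQ_surjective v
  have hWeq : ∀ B, Dir Δ B → Le.{u} ℵ₁ B → A ⊆ B →
      Submodule.map S.D.mkQ (fixed (lim P B)) = Submodule.map S.D.mkQ (fixed (lim P A)) := by
    intro B hB hBle hAB
    exact (Submodule.eq_of_le_of_finrank_le (Submodule.map_mono (S.fixed_mono hA hB hAB))
      (hmax B ⟨hB, hBle⟩)).symm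
  -- the point witnessing that `φ` does not live on `B`
  have hx : ∀ B, ∃ x : X, Dir Δ B → Le.{u} ℵ₁ B → A ⊆ B → φ (lim P B x) ≠ φ x := by
    intro B
    by_cases hB : Dir Δ B ∧ Le.{u} ℵ₁ B ∧ A ⊆ B
    · have : φ ∉ fixed (lim P B) := by
        intro h
        apply hv
        rw [← hWeq B hB.1 hB.2.1 hB.2.2]
        exact Submodule.mem_map_of_mem h
      rw [mem_fixed] at this
      push Not at this
      obtain ⟨x, hx⟩ := this
      exact ⟨x, fun _ _ _ => hx⟩
    · exact ⟨0, fun h1 h2 h3 => absurd ⟨h1, h2, h3⟩ hB⟩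
  choose xB hxB using hx
  have hp : ∀ x : X, ∃ s ∈ Δ, P s x = x := fun x => by
    obtain ⟨s, hs⟩ := S.cover x
    obtain ⟨t, ht, hst⟩ := S.cof s
    exact ⟨t, ht, S.fix_mono hst hs⟩
  choose p hpΔ hp using hp
  -- the chain
  obtain ⟨I, _, _, hI, hIio⟩ := exists_wo (ℵ₁ : Cardinal.{u})
  let G : Set Γ → Set Γ := fun T => hull m (hull m T ∪ {p (xB (hull m T))})
  let F : I → Set Γ := WellFoundedLT.fix fun i IH => G (A ∪ ⋃ j : Iio i, IH j j.2)
  have hF : ∀ i, F i = G (A ∪ ⋃ j : Iio i, F j) := fun i => WellFoundedLT.fix_eq _ i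
  have hIioc : ∀ i : I, (Iio i).Countable := by
    intro i
    rw [← le_aleph0_iff_set_countable]
    have := hIio i
    rwa [← succ_aleph0, Order.lt_succ_iff] at this
  have hTG : ∀ T, T ⊆ G T := fun T =>
    (subset_hull m T).trans (subset_union_left.trans (subset_hull m _))
  have hmono : ∀ i j : I, i < j → F i ⊆ F j := by
    intro i j hij
    rw [hF j]
    refine Subset.trans ?_ (hTG _)
    refine Subset.trans ?_ subset_union_right
    exact subset_iUnion (fun k : Iio j => F k) ⟨i, hij⟩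
  have hprops : ∀ i, Dir Δ (F i) ∧ Le.{u} ℵ₁ (F i) ∧ A ⊆ F i := by
    intro i
    induction i using WellFoundedLT.induction with
    | ind i ih =>
      have hsub : A ∪ ⋃ j : Iio i, F j ⊆ Δ :=
        union_subset hA.sub (iUnion_subset fun j => (ih j j.2).1.sub)
      have hne : (A ∪ ⋃ j : Iio i, F j).Nonempty := hA.ne.mono subset_union_left
      have hd := dir_hull hm hsub hne
      have hsub2 : hull m (A ∪ ⋃ j : Iio i, F j) ∪ {p (xB (hull m (A ∪ ⋃ j : Iio i, F j)))} ⊆ Δ :=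
        union_subset hd.sub (by simpa using hpΔ _)
      rw [hF i]
      refine ⟨dir_hull hm hsub2 (hd.ne.mono subset_union_left), ?_,
        subset_union_left.trans (hTG _)⟩
      refine Le.hull h0 m (Le.union h0 (Le.hull h0 m (Le.union h0 hAle ?_))
        (Le.of_countable h0 (countable_singleton _)))
      exact Le.iUnion h0 ((mk_set_le _).trans hI.le) fun j => (ih j j.2).2.1
  have hIne : Nonempty I := by
    rw [← mk_ne_zero_iff, hI]
    exact (aleph_pos 1).ne'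
  set B : Set Γ := ⋃ i, F i with hBdef
  have hBdir : Dir Δ B := by
    obtain ⟨i₀⟩ := hIne
    refine ⟨(hprops i₀).1.ne.mono (subset_iUnion F i₀), ?_,
      iUnion_subset fun i => (hprops i).1.sub⟩
    intro s hs t ht
    obtain ⟨i, hi⟩ := mem_iUnion.1 hs
    obtain ⟨j, hj⟩ := mem_iUnion.1 ht
    have hi' : s ∈ F (max i j) := by
      rcases (le_max_left i j).eq_or_lt with h | h
      · rwa [← h]
      · exact hmono _ _ h hi
    have hj' : t ∈ F (max i j) := by
      rcases (le_max_right i j).eq_or_lt with h | h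
      · rwa [← h]
      · exact hmono _ _ h hj
    obtain ⟨r, hr, h1, h2⟩ := (hprops (max i j)).1.dir s hi' t hj'
    exact ⟨r, mem_iUnion.2 ⟨_, hr⟩, h1, h2⟩
  have hAB : A ⊆ B := by
    obtain ⟨i₀⟩ := hIne
    exact (hprops i₀).2.2.trans (subset_iUnion F i₀)
  have hBle : Le.{u} ℵ₁ B := Le.iUnion h0 hI.le fun i => (hprops i).2.1
  -- the functional `φ ∘ lim B` is, modulo `D`, in `fixed (lim A)`
  let ψ : X →L[𝕜] 𝕜 := φ ∘L lim P B
  have hψB : ∀ x, ψ (lim P B x) = ψ x := fun x => by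
    change φ (lim P B (lim P B x)) = φ (lim P B x)
    rw [S.lim_idem hBdir]
  have hψW : S.D.mkQ ψ ∈ Submodule.map S.D.mkQ (fixed (lim P A)) := by
    rw [← hWeq B hBdir hBle hAB]
    exact Submodule.mem_map_of_mem hψB
  obtain ⟨f, hf, hfψ⟩ := Submodule.mem_map.1 hψW
  have hd : ψ - f ∈ S.D := by
    rw [Submodule.mkQ_apply, Submodule.mkQ_apply, Submodule.Quotient.eq] at hfψ
    rw [← neg_sub]
    exact S.D.neg_mem hfψ
  have hfB : f ∈ fixed (lim P B) := S.fixed_mono hA hBdir hAB hf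
  have hdB : ∀ x, (ψ - f) (lim P B x) = (ψ - f) x := fun x => by
    rw [sub_apply, sub_apply, hψB, hfB x]
  obtain ⟨C, hCB, hCc, hC, hCfix⟩ := S.exists_countable hBdir hd hdB
  -- `C` is contained in some member of the chain
  obtain ⟨i, hi⟩ : ∃ i : I, C ⊆ ⋃ j : Iio i, F j := by
    have h1 : ∀ c : C, ∃ j, (c : Γ) ∈ F j := fun c => mem_iUnion.1 (hCB c.2)
    choose j hj using h1
    by_contra hno
    push Not at hno
    have h2 : ∀ i : I, ∃ c : C, i ≤ j c := by
      intro i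
      by_contra hno2
      push Not at hno2
      refine hno i fun c hc => mem_iUnion.2 ⟨⟨j ⟨c, hc⟩, hno2 ⟨c, hc⟩⟩, hj ⟨c, hc⟩⟩
    have hcover : (univ : Set I) ⊆ ⋃ c : C, Iic (j c) := fun i _ => by
      obtain ⟨c, hc⟩ := h2 i
      exact mem_iUnion.2 ⟨c, hc⟩
    have : Countable C := hCc.to_subtype
    have hcount : (⋃ c : C, Iic (j c)).Countable := by
      refine countable_iUnion fun c => ?_
      rw [← Iio_insert]
      exact (hIioc _).insert _
    have h3 : #I ≤ ℵ₀ := by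
      rw [← mk_univ]
      exact (mk_le_mk_of_subset hcover).trans (le_aleph0_iff_set_countable.2 hcount)
    rw [hI] at h3
    exact absurd h3 (not_le.2 (by
      rw [← succ_aleph0]
      exact Order.lt_succ _))
  let T := A ∪ ⋃ j : Iio i, F j
  have hTsub : T ⊆ Δ := union_subset hA.sub (iUnion_subset fun j => (hprops j).1.sub)
  have hH : Dir Δ (hull m T) := dir_hull hm hTsub (hA.ne.mono subset_union_left)
  have hCH : C ⊆ hull m T := (hi.trans subset_union_right).trans (subset_hull m T)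
  have hAH : A ⊆ hull m T := subset_union_left.trans (subset_hull m T)
  have hHF : hull m T ⊆ F i := by
    rw [hF i]
    exact subset_union_left.trans (subset_hull m _)
  have hHB : hull m T ⊆ B := hHF.trans (subset_iUnion F i)
  have hHle : Le.{u} ℵ₁ (hull m T) := (hprops i).2.1.mono hHF
  have hmem : p (xB (hull m T)) ∈ B := by
    refine mem_iUnion.2 ⟨i, ?_⟩
    rw [hF i]
    exact subset_hull m _ (Or.inr rfl)
  have hne := hxB (hull m T) hH hHle hAH
  apply hne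
  set x := xB (hull m T) with hxdef
  have e1 : lim P B x = x := S.lim_fix hBdir hmem (hp x)
  -- `ψ` is fixed by `lim (hull m T)`
  have e2 : (ψ - f) (lim P (hull m T) x) = (ψ - f) x := by
    rw [← hCfix (lim P (hull m T) x), S.lim_lim_of_subset hC hH hCH, hCfix]
  have e3 : f (lim P (hull m T) x) = f x := S.fixed_mono hA hH hAH hf x
  have e4 : ψ (lim P (hull m T) x) = ψ x := by
    rw [sub_apply, sub_apply, e3] at e2
    exact sub_left_inj.1 e2
  change φ (lim P B (lim P (hull m T) x)) = φ (lim P B x) at e4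
  rwa [S.lim_lim_of_superset hH hBdir hHB, e1] at e4

end Sys

end Pool.Agent.K7.H85.PS
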