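import Pool.Agent.K7.H85.PS.Good

/-!
# Finite codimension: large directed sets preserve `D`, the end of the proof

Helper file for MP_927f17_an.
-/

set_option autoImplicit false

open Set Filter Topology Cardinal

universe u v

namespace Pool.Agent.K7.H85.PS

variable {𝕜 : Type*} [RCLike 𝕜] {X : Type*} [NormedAddCommGroup X] [NormedSpace 𝕜 X]
  [CompleteSpace X] {Γ : Type*} [PartialOrder Γ] {P : Γ → X →L[𝕜] X} {Δ : Set Γ} {K : ℝ}

namespace Sys

variable (S : Sys P Δ K)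

/-- Step G: the limit projections of all directed sets containing a suitable directed set of size at
most `ℵ₁` preserve the induced subspace. -/
theorem exists_good (hfin : FiniteDimensional 𝕜 ((X →L[𝕜] 𝕜) ⧸ S.D)) :
    ∃ A, Dir Δ A ∧ Le.{u} ℵ₁ A ∧
      ∀ B, Dir Δ B → A ⊆ B → ∀ ψ ∈ S.D, ψ ∘L lim P B ∈ S.D := by
  obtain ⟨m, hm⟩ := S.exists_op
  have h0 : (ℵ₀ : Cardinal.{u}) ≤ ℵ₁ := aleph0_le_aleph 1
  obtain ⟨A, hA, hAle, hfull⟩ := S.exists_full hfin
  -- a complement of `D` inside `fixed (lim A)`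
  let q : fixed (lim P A) →ₗ[𝕜] (X →L[𝕜] 𝕜) ⧸ S.D := S.D.mkQ ∘ₗ (fixed (lim P A)).subtype
  have hq : LinearMap.range q = ⊤ := by
    rw [LinearMap.range_comp, Submodule.range_subtype]
    exact hfull
  obtain ⟨σ, hσ⟩ := LinearMap.exists_rightInverse_of_surjective q hq
  let τ : (X →L[𝕜] 𝕜) ⧸ S.D →ₗ[𝕜] (X →L[𝕜] 𝕜) := (fixed (lim P A)).subtype ∘ₗ σ
  have hτA : ∀ v x, τ v (lim P A x) = τ v x := fun v x => (σ v).2 x
  have hτq : ∀ v, S.D.mkQ (τ v) = v := fun v => LinearMap.congr_fun hσ v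
  -- the bad functionals
  let N : Set Γ → Submodule 𝕜 ((X →L[𝕜] 𝕜) ⧸ S.D) := fun B =>
    { carrier := {v | ∃ ψ ∈ S.D, ∀ x, ψ (lim P B x) = τ v x}
      zero_mem' := ⟨0, S.D.zero_mem, fun x => by simp⟩
      add_mem' := by
        rintro v w ⟨ψ, hψ, h1⟩ ⟨φ, hφ, h2⟩
        exact ⟨ψ + φ, S.D.add_mem hψ hφ, fun x => by
          rw [map_add, add_apply, add_apply, h1, h2]⟩
      smul_mem' := by
        rintro c v ⟨ψ, hψ, h1⟩
        exact ⟨c • ψ, S.D.smul_mem c hψ, fun x => by simp [h1 x]⟩ }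
  have hNmem : ∀ B v, v ∈ N B ↔ ∃ ψ ∈ S.D, ∀ x, ψ (lim P B x) = τ v x := fun B v => Iff.rfl
  have hNanti : ∀ B B', Dir Δ B → Dir Δ B' → A ⊆ B → B ⊆ B' → N B' ≤ N B := by
    rintro B B' hB hB' hAB hBB' v ⟨ψ, hψ, h⟩
    refine ⟨ψ, hψ, fun x => ?_⟩
    rw [← S.lim_lim_of_superset hB hB' hBB', h, ← hτA v, S.lim_lim_of_subset hA hB hAB, hτA]
  obtain ⟨B, ⟨hB, hBle, hAB⟩, hmin⟩ := exists_minimizer
    (fun B : Set Γ => Dir Δ B ∧ Le.{u} ℵ₁ B ∧ A ⊆ B)
    (fun B => Module.finrank 𝕜 (N B)) ⟨A, hA, hAle, Subset.rfl⟩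
  have hNeq : ∀ B', Dir Δ B' → Le.{u} ℵ₁ B' → B ⊆ B' → N B' = N B := by
    intro B' hB' hB'le hBB'
    exact Submodule.eq_of_le_of_finrank_le (hNanti B B' hB hB' hAB hBB')
      (hmin B' ⟨hB', hB'le, hAB.trans hBB'⟩)
  -- the key claim
  have hbot : N B = ⊥ := by
    rw [Submodule.eq_bot_iff]
    intro v hv
    -- a uniform bound
    obtain ⟨C, hC⟩ : ∃ C : ℕ, ∀ B', Dir Δ B' → Le.{u} ℵ₁ B' → B ⊆ B' →
        ∃ ψ ∈ S.D, ‖ψ‖ ≤ C ∧ ∀ x, ψ (lim P B' x) = τ v x := by
      by_contra hcon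
      push Not at hcon
      choose T hT hTle hBT hTno using hcon
      have hsub : (⋃ n, T n) ⊆ Δ := iUnion_subset fun n => (hT n).sub
      have hne : (⋃ n, T n).Nonempty := (hT 0).ne.mono (subset_iUnion T 0)
      have hH : Dir Δ (hull m (⋃ n, T n)) := dir_hull hm hsub hne
      have hHle : Le.{u} ℵ₁ (hull m (⋃ n, T n)) := by
        refine Le.hull h0 m ?_
        have : (⋃ n, T n) = ⋃ n : ULift.{u} ℕ, T n.down := by
          ext a
          simp
        rw [this]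
        exact Le.iUnion h0 (by simp) fun n => hTle n.down
      have hTH : ∀ n, T n ⊆ hull m (⋃ n, T n) := fun n =>
        (subset_iUnion T n).trans (subset_hull m _)
      have hvH : v ∈ N (hull m (⋃ n, T n)) := by
        rw [hNeq _ hH hHle ((hBT 0).trans (hTH 0))]
        exact hv
      obtain ⟨ψ, hψ, hψv⟩ := hvH
      obtain ⟨C, hC⟩ := exists_nat_ge ‖ψ‖
      obtain ⟨x, hx⟩ := hTno C ψ hψ hC
      apply hx
      rw [← S.lim_lim_of_superset (hT C) hH (hTH C), hψv, ← hτA v,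
        S.lim_lim_of_subset hA (hT C) (hAB.trans (hBT C)), hτA]
    choose! ψ hψD hψC hψv using hC
    have : Nonempty Γ := ⟨hB.ne.some⟩
    choose! t ht using fun (T : Set Γ) (hT : Dir Δ T) (h1 : Le.{u} ℵ₁ T) (h2 : B ⊆ T) =>
      S.mem_D.1 (hψD T hT h1 h2)
    -- the increasing sequence of directed sets
    obtain ⟨T, hT0, hTp, hTr⟩ := dc
      (fun T : Set Γ => Dir Δ T ∧ Le.{u} ℵ₁ T ∧ B ⊆ T)
      (fun T T' => T ⊆ T' ∧ ∃ s ∈ T', t T ≤ s) B ⟨hB, hBle, Subset.rfl⟩ (by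
        rintro T ⟨hT, hTle, hBT⟩
        obtain ⟨s, hs, hts⟩ := S.cof (t T)
        refine ⟨hull m (T ∪ {s}), ⟨dir_hull hm (union_subset hT.sub (by simpa using hs))
          (hT.ne.mono subset_union_left), Le.hull h0 m (Le.union h0 hTle
          (Le.of_countable h0 (countable_singleton s))),
          (hBT.trans subset_union_left).trans (subset_hull m _)⟩,
          subset_union_left.trans (subset_hull m _), s, subset_hull m _ (Or.inr rfl), hts⟩)
    have hTmono : Monotone T := monotone_nat_of_le_succ fun n => (hTr n).1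
    set U : Set Γ := ⋃ n, T n with hUdef
    have hTU : ∀ n, T n ⊆ U := fun n => subset_iUnion T n
    have hU : Dir Δ U := by
      refine ⟨(hTp 0).1.ne.mono (hTU 0), ?_, iUnion_subset fun n => (hTp n).1.sub⟩
      intro a ha b hb
      obtain ⟨i, hi⟩ := mem_iUnion.1 ha
      obtain ⟨j, hj⟩ := mem_iUnion.1 hb
      obtain ⟨r, hr, h1, h2⟩ := (hTp (max i j)).1.dir a (hTmono (le_max_left i j) hi) b
        (hTmono (le_max_right i j) hj)
      exact ⟨r, hTU _ hr, h1, h2⟩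
    -- an increasing sequence of indices in `U`
    have hstep : ∀ n, ∀ a ∈ U, ∃ b ∈ U, a ≤ b ∧ t (T n) ≤ b := by
      intro n a ha
      obtain ⟨s, hs, hts⟩ := (hTr n).2
      obtain ⟨r, hr, h1, h2⟩ := hU.dir a ha s (hTU _ hs)
      exact ⟨r, hr, h1, hts.trans h2⟩
    choose! g hgU hgle hgt using hstep
    obtain ⟨a₀, ha₀⟩ := hU.ne
    let s : ℕ → Γ := fun n => Nat.rec a₀ (fun k r => g k r) n
    have hsU : ∀ n, s n ∈ U := by
      intro n
      induction n with
      | zero => exact ha₀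
      | succ n ih => exact hgU n _ ih
    have hsm : Monotone s := monotone_nat_of_le_succ fun n => hgle n _ (hsU n)
    obtain ⟨r, -, hsr, hslim⟩ := S.sup s hsm fun n => hU.sub (hsU n)
    have htr : ∀ n, t (T n) ≤ r := fun n => (hgt n _ (hsU n)).trans (hsr (n + 1))
    -- `P r` and `lim U`
    have hrU : ∀ x, P r (lim P U x) = P r x := by
      intro x
      have h1 := hslim (lim P U x)
      have h2 := hslim x
      refine tendsto_nhds_unique h1 (h2.congr fun n => ?_)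
      rw [S.lim_left hU (hsU n)]
    have hUr : ∀ x, lim P U (P r x) = P r x := by
      intro x
      have h1 := ((lim P U).continuous.tendsto _).comp (hslim x)
      refine tendsto_nhds_unique h1 ((hslim x).congr fun n => ?_)
      simp only [Function.comp]
      rw [S.lim_right hU (hsU n)]
    let ψn : ℕ → X →L[𝕜] 𝕜 := fun n => ψ (T n)
    have hψnC : ∀ n, ‖ψn n‖ ≤ C := fun n => hψC _ (hTp n).1 (hTp n).2.1 (hTp n).2.2
    have hψnr : ∀ n x, ψn n (P r x) = ψn n x := fun n x =>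
      S.funFix_mono (htr n) (ht _ (hTp n).1 (hTp n).2.1 (hTp n).2.2) x
    have hψnv : ∀ n x, ψn n (lim P (T n) x) = τ v x := fun n x =>
      hψv _ (hTp n).1 (hTp n).2.1 (hTp n).2.2 x
    -- convergence
    have hconv : ∀ y, Tendsto (fun n => ψn n (lim P U y)) atTop (𝓝 (τ v y)) := by
      intro y
      rw [Metric.tendsto_atTop]
      intro ε hε
      have hε' : 0 < ε / (C + 1) := by positivity
      obtain ⟨a, ha, hnear⟩ := S.lim_near hU y hε'
      obtain ⟨i, hi⟩ := mem_iUnion.1 ha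
      refine ⟨i, fun n hn => ?_⟩
      have h1 := hnear (T n) (hTp n).1 (hTU n) (hTmono hn hi)
      rw [dist_eq_norm, ← hψnv n y, ← map_sub]
      calc ‖ψn n (lim P U y - lim P (T n) y)‖ ≤ ‖ψn n‖ * ‖lim P U y - lim P (T n) y‖ :=
            (ψn n).le_opNorm _
        _ ≤ C * (ε / (C + 1)) := by
            rw [norm_sub_rev]
            exact mul_le_mul (hψnC n) h1 (norm_nonneg _) (Nat.cast_nonneg C)
        _ < ε := by
            rw [mul_div_assoc', div_lt_iff₀ (by positivity)]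
            nlinarith
    have hvr : ∀ x, τ v (P r x) = τ v x := by
      intro x
      have h1 := hconv x
      have h2 := hconv (P r x)
      refine tendsto_nhds_unique h2 (h1.congr fun n => ?_)
      rw [hUr, ← hψnr n (lim P U x), hrU]
    have hvD : τ v ∈ S.D := ⟨r, hvr⟩
    have := hτq v
    rw [← this]
    rwa [Submodule.mkQ_apply, Submodule.Quotient.mk_eq_zero]
  -- conclusion
  refine ⟨B, hB, hBle, fun B' hB' hBB' ψ hψ => ?_⟩
  set g : X →L[𝕜] 𝕜 := ψ ∘L lim P B' with hg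
  have hgfix : ∀ x, g (lim P B' x) = g x := fun x => by
    change ψ (lim P B' (lim P B' x)) = ψ (lim P B' x)
    rw [S.lim_idem hB']
  let v := S.D.mkQ g
  have hfD : g - τ v ∈ S.D := by
    have h1 : S.D.mkQ (g - τ v) = 0 := by
      rw [map_sub, hτq, sub_self]
    rwa [Submodule.mkQ_apply, Submodule.Quotient.mk_eq_zero] at h1
  have hτB' : ∀ x, τ v (lim P B' x) = τ v x := fun x => by
    rw [← hτA v (lim P B' x), S.lim_lim_of_subset hA hB' (hAB.trans hBB'), hτA]
  have hvN : v ∈ N B' := by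
    refine ⟨ψ - (g - τ v), S.D.sub_mem hψ hfD, fun x => ?_⟩
    rw [sub_apply, sub_apply, hgfix, hτB']
    change ψ (lim P B' x) - (ψ (lim P B' x) - τ v x) = τ v x
    ring
  have hv0 : v = 0 := by
    have h1 := hNanti B B' hB hB' hAB hBB' hvN
    rw [hbot] at h1
    exact (Submodule.mem_bot 𝕜).1 h1
  rw [hv0, map_zero, sub_zero] at hfD
  exact hfD

end Sys

end Pool.Agent.K7.H85.PS
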