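import Pool.Agent.K7.H85.PS.Core

/-!
# The limit projections of directed sets

Helper file for MP_927f17_an.
-/

set_option autoImplicit false

open Set Filter Topology Cardinal

universe u v

namespace Pool.Agent.K7.H85.PS

/-- Dependent choice. -/
lemma dc {α : Type*} (p : α → Prop) (r : α → α → Prop) (a₀ : α) (h₀ : p a₀)
    (h : ∀ a, p a → ∃ b, p b ∧ r a b) :
    ∃ f : ℕ → α, f 0 = a₀ ∧ (∀ n, p (f n)) ∧ ∀ n, r (f n) (f (n + 1)) := by
  choose! g hg hr using h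
  let f : ℕ → α := fun n => Nat.rec a₀ (fun _ a => g a) n
  have hf : ∀ n, p (f n) := by
    intro n
    induction n with
    | zero => exact h₀
    | succ n ih => exact hg _ ih
  exact ⟨f, rfl, hf, fun n => hr _ (hf n)⟩

lemma eq_of_norm_le {E : Type*} [NormedAddCommGroup E] {a b : E} (C : ℝ)
    (h : ∀ ε > 0, ‖a - b‖ ≤ C * ε) : a = b := by
  rw [← sub_eq_zero, ← norm_le_zero_iff]
  have h1 : Tendsto (fun ε : ℝ => C * ε) (𝓝[>] 0) (𝓝 0) := by
    have : Tendsto (fun ε : ℝ => C * ε) (𝓝 0) (𝓝 (C * 0)) := tendsto_id.const_mul C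
    rw [mul_zero] at this
    exact this.mono_left nhdsWithin_le_nhds
  refine ge_of_tendsto h1 ?_
  filter_upwards [self_mem_nhdsWithin] with ε hε using h ε hε

variable {𝕜 : Type*} [RCLike 𝕜] {X : Type*} [NormedAddCommGroup X] [NormedSpace 𝕜 X]
  [CompleteSpace X] {Γ : Type*} [PartialOrder Γ]

open Classical in
/-- The limit projection of a directed set. -/
noncomputable def lim (P : Γ → X →L[𝕜] X) (A : Set Γ) : X →L[𝕜] X :=
  if h : ∃ Q, IsLim P A Q then h.choose else 0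

variable {P : Γ → X →L[𝕜] X} {Δ : Set Γ} {K : ℝ}

namespace Sys

variable (S : Sys P Δ K)
include S

lemma isLim {A : Set Γ} (hA : Dir Δ A) : IsLim P A (lim P A) := by
  unfold lim
  rw [dif_pos (S.exists_lim hA)]
  exact (S.exists_lim hA).choose_spec

lemma approx {A : Set Γ} (hA : Dir Δ A) (x : X) {ε : ℝ} (hε : 0 < ε) {s : Γ} (hs : s ∈ A) :
    ∃ t ∈ A, s ≤ t ∧ ‖P t x - lim P A x‖ < ε := by
  obtain ⟨t, ht, h⟩ := S.isLim hA x ε hε
  obtain ⟨r, hr, h1, h2⟩ := hA.dir s hs t ht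
  exact ⟨r, hr, h1, h r hr h2⟩

lemma lim_left {A : Set Γ} (hA : Dir Δ A) {s : Γ} (hs : s ∈ A) (x : X) :
    P s (lim P A x) = P s x := by
  apply eq_of_norm_le ‖P s‖
  intro ε hε
  obtain ⟨t, ht, hst, h⟩ := S.approx hA x hε hs
  rw [← S.left s t hst x, ← map_sub, ← norm_neg, ← map_neg, neg_sub]
  exact ((P s).le_opNorm _).trans (mul_le_mul_of_nonneg_left h.le (norm_nonneg _))

lemma lim_right {A : Set Γ} (hA : Dir Δ A) {s : Γ} (hs : s ∈ A) (x : X) :
    lim P A (P s x) = P s x := by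
  apply eq_of_norm_le 1
  intro ε hε
  obtain ⟨t, ht, hst, h⟩ := S.approx hA (P s x) hε hs
  rw [S.right s t hst x, norm_sub_rev] at h
  linarith

lemma lim_fix {A : Set Γ} (hA : Dir Δ A) {s : Γ} (hs : s ∈ A) {x : X} (hx : P s x = x) :
    lim P A x = x := by
  rw [← hx]
  exact S.lim_right hA hs x

lemma lim_norm_le {A : Set Γ} (hA : Dir Δ A) (x : X) : ‖lim P A x‖ ≤ K * ‖x‖ := by
  refine le_of_forall_pos_le_add fun ε hε => ?_
  obtain ⟨s, hs⟩ := hA.ne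
  obtain ⟨t, ht, hst, h⟩ := S.approx hA x hε hs
  have h1 : ‖P t x‖ ≤ K * ‖x‖ := (P t).le_of_opNorm_le (S.bdd t (hA.sub ht)) x
  calc ‖lim P A x‖ = ‖P t x - (P t x - lim P A x)‖ := by congr 1; abel
    _ ≤ ‖P t x‖ + ‖P t x - lim P A x‖ := norm_sub_le _ _
    _ ≤ K * ‖x‖ + ε := add_le_add h1 h.le

/-- Two operators which agree approximately. -/
lemma lim_eq_of {A : Set Γ} (hA : Dir Δ A) (x y : X) (C : ℝ)
    (h : ∀ ε > 0, ∃ s ∈ A, ∀ t ∈ A, s ≤ t → ‖P t x - y‖ ≤ C * ε) : lim P A x = y := by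
  apply eq_of_norm_le (1 + C)
  intro ε hε
  obtain ⟨s, hs, h1⟩ := h ε hε
  obtain ⟨t, ht, hst, h2⟩ := S.approx hA x hε hs
  calc ‖lim P A x - y‖ = ‖(P t x - y) - (P t x - lim P A x)‖ := by congr 1; abel
    _ ≤ ‖P t x - y‖ + ‖P t x - lim P A x‖ := norm_sub_le _ _
    _ ≤ C * ε + ε := add_le_add (h1 t ht hst) h2.le
    _ = (1 + C) * ε := by ring

lemma lim_upper {A : Set Γ} (hA : Dir Δ A) {t : Γ} (ht : ∀ s ∈ A, s ≤ t) (x : X) :
    lim P A (P t x) = lim P A x := by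
  apply S.lim_eq_of hA _ _ 1
  intro ε hε
  obtain ⟨s, hs, h⟩ := S.isLim hA x ε hε
  refine ⟨s, hs, fun r hr hsr => ?_⟩
  rw [S.left r t (ht r hr) x, one_mul]
  exact (h r hr hsr).le

lemma lim_lim_of_subset {A B : Set Γ} (hA : Dir Δ A) (hB : Dir Δ B) (h : A ⊆ B) (x : X) :
    lim P A (lim P B x) = lim P A x := by
  apply S.lim_eq_of hA _ _ 1
  intro ε hε
  obtain ⟨s, hs, h1⟩ := S.isLim hA x ε hε
  refine ⟨s, hs, fun r hr hsr => ?_⟩
  rw [S.lim_left hB (h hr) x, one_mul]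
  exact (h1 r hr hsr).le

lemma lim_lim_of_superset {A B : Set Γ} (hA : Dir Δ A) (hB : Dir Δ B) (h : A ⊆ B) (x : X) :
    lim P B (lim P A x) = lim P A x := by
  apply eq_of_norm_le (1 + K)
  intro ε hε
  obtain ⟨s, hs, h1⟩ := S.isLim hA x ε hε
  have h2 := h1 s hs le_rfl
  have h3 := S.lim_norm_le hB (P s x - lim P A x)
  have hK : 0 ≤ K := S.K_nonneg ⟨s⟩
  rw [map_sub, S.lim_right hB (h hs) x] at h3
  calc ‖lim P B (lim P A x) - lim P A x‖
      = ‖(P s x - lim P A x) - (P s x - lim P B (lim P A x))‖ := by congr 1; abel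
    _ ≤ ‖P s x - lim P A x‖ + ‖P s x - lim P B (lim P A x)‖ := norm_sub_le _ _
    _ ≤ ε + K * ε := add_le_add h2.le (h3.trans (mul_le_mul_of_nonneg_left h2.le hK))
    _ = (1 + K) * ε := by ring

lemma lim_idem {A : Set Γ} (hA : Dir Δ A) (x : X) : lim P A (lim P A x) = lim P A x :=
  S.lim_lim_of_subset hA hA Subset.rfl x

/-- Continuity of the limit projections. -/
lemma lim_near {A : Set Γ} (hA : Dir Δ A) (x : X) {ε : ℝ} (hε : 0 < ε) :
    ∃ s ∈ A, ∀ B, Dir Δ B → B ⊆ A → s ∈ B → ‖lim P B x - lim P A x‖ ≤ ε := by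
  obtain ⟨s, hs, h⟩ := S.isLim hA x (ε / 2) (half_pos hε)
  refine ⟨s, hs, fun B hB hBA hsB => ?_⟩
  obtain ⟨t, ht, hst, h2⟩ := S.approx hB x (half_pos hε) hsB
  calc ‖lim P B x - lim P A x‖ = ‖(P t x - lim P A x) - (P t x - lim P B x)‖ := by
        congr 1; abel
    _ ≤ ‖P t x - lim P A x‖ + ‖P t x - lim P B x‖ := norm_sub_le _ _
    _ ≤ ε / 2 + ε / 2 := add_le_add (h t (hBA ht) hst).le h2.le
    _ = ε := add_halves ε

/-- The limit projection is determined on `x` by countably many indices. -/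
lemma exists_near_set {A : Set Γ} (hA : Dir Δ A) (x : X) :
    ∃ E : Set Γ, E.Countable ∧ E ⊆ A ∧
      ∀ B, Dir Δ B → B ⊆ A → E ⊆ B → lim P B x = lim P A x := by
  choose s hs h using fun k : ℕ => S.lim_near hA x (Nat.one_div_pos_of_nat (α := ℝ) (n := k))
  refine ⟨range s, countable_range s, ?_, fun B hB hBA hE => ?_⟩
  · rintro _ ⟨k, rfl⟩
    exact hs k
  · rw [← sub_eq_zero, ← norm_le_zero_iff]
    refine ge_of_tendsto' (tendsto_one_div_add_atTop_nhds_zero_nat (𝕜 := ℝ)) fun k => ?_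
    exact h k B hB hBA (hE ⟨k, rfl⟩)

lemma lim_comm {A : Set Γ} (hA : Dir Δ A) {R : X →L[𝕜] X}
    (h : ∀ s ∈ A, ∀ x, P s (R x) = R (P s x)) (x : X) : lim P A (R x) = R (lim P A x) := by
  apply S.lim_eq_of hA _ _ ‖R‖
  intro ε hε
  obtain ⟨s, hs, h1⟩ := S.isLim hA x ε hε
  refine ⟨s, hs, fun t ht hst => ?_⟩
  rw [h t ht x, ← map_sub]
  exact (R.le_opNorm _).trans (mul_le_mul_of_nonneg_left (h1 t ht hst).le (norm_nonneg _))

lemma lim_mem_closure {A : Set Γ} (hA : Dir Δ A) (x : X) :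
    lim P A x ∈ closure (⋃ s ∈ A, range (P s)) := by
  rw [Metric.mem_closure_iff]
  intro ε hε
  obtain ⟨s, hs, h⟩ := S.isLim hA x ε hε
  refine ⟨P s x, mem_iUnion₂.2 ⟨s, hs, ⟨x, rfl⟩⟩, ?_⟩
  rw [dist_comm, dist_eq_norm]
  exact h s hs le_rfl

/-- For a countable directed set, every functional composed with the limit projection is in `D`. -/
lemma lim_countable {A : Set Γ} (hA : Dir Δ A) (hc : A.Countable) :
    ∃ s, ∀ x, lim P A (P s x) = lim P A x := by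
  obtain ⟨a, -⟩ := hA.ne
  obtain ⟨s, -, -, h⟩ := S.exists_upper hc a
  exact ⟨s, fun x => S.lim_upper hA h x⟩

/-- **The main lemma on supports.** A functional in `D` which is fixed by the limit projection of a
directed set `A` is fixed by the limit projection of a countable directed subset. -/
theorem exists_countable {A : Set Γ} (hA : Dir Δ A) {ψ : X →L[𝕜] 𝕜}
    (hD : ∃ s, ∀ x, ψ (P s x) = ψ x) (hψ : ∀ x, ψ (lim P A x) = ψ x) :
    ∃ C ⊆ A, C.Countable ∧ Dir Δ C ∧ ∀ x, ψ (lim P C x) = ψ x := by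
  obtain ⟨t₀, ht₀⟩ := hD
  obtain ⟨m, hm⟩ := PS.exists_op hA.dir
  choose E hEc hEA hE using S.exists_near_set hA
  -- countable dense sets of the ranges
  have hdense : ∀ t, ∃ Y : Set X, Y.Countable ∧ range (P t) ⊆ closure Y := fun t => S.sep t
  choose Y hYc hY using hdense
  obtain ⟨a₀, ha₀⟩ := hA.ne
  obtain ⟨t₁, ht₁, h01, hat⟩ := S.exists_upper (countable_singleton a₀) t₀
  obtain ⟨f, hf0, hp, hr⟩ := dc
    (fun q : Set Γ × Γ => q.1 ⊆ A ∧ q.1.Countable ∧ q.2 ∈ Δ ∧ t₀ ≤ q.2 ∧ ∀ c ∈ q.1, c ≤ q.2)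
    (fun q q' => q.1 ⊆ q'.1 ∧ q.2 ≤ q'.2 ∧ (∀ a ∈ q.1, ∀ b ∈ q.1, m a b ∈ q'.1) ∧
      ∀ y ∈ Y q.2, E y ⊆ q'.1)
    ({a₀}, t₁) ⟨by simpa using ha₀, countable_singleton a₀, ht₁, h01, hat⟩ (by
      rintro ⟨C, t⟩ ⟨hCA, hCc, ht, h0, hup⟩
      simp only at hCA hCc ht h0 hup
      have hC'c : (C ∪ Set.image2 m C C ∪ ⋃ y ∈ Y t, E y).Countable :=
        (hCc.union (hCc.image2 hCc m)).union ((hYc t).biUnion fun y _ => hEc y)
      obtain ⟨t', ht', hle, hup'⟩ := S.exists_upper hC'c t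
      refine ⟨(C ∪ Set.image2 m C C ∪ ⋃ y ∈ Y t, E y, t'), ⟨?_, hC'c, ht', h0.trans hle, hup'⟩,
        ?_, hle, ?_, ?_⟩
      · refine union_subset (union_subset hCA ?_) (iUnion₂_subset fun y _ => hEA y)
        rintro _ ⟨a, ha, b, hb, rfl⟩
        exact (hm a (hCA ha) b (hCA hb)).1
      · intro c hc
        exact Or.inl (Or.inl hc)
      · intro a ha b hb
        exact Or.inl (Or.inr ⟨a, ha, b, hb, rfl⟩)
      · intro y hy c hc
        exact Or.inr (mem_iUnion₂.2 ⟨y, hy, hc⟩))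
  have hmonC : Monotone fun n => (f n).1 := monotone_nat_of_le_succ fun n => (hr n).1
  have hmonT : Monotone fun n => (f n).2 := monotone_nat_of_le_succ fun n => (hr n).2.1
  set C : Set Γ := ⋃ n, (f n).1 with hCdef
  have hCA : C ⊆ A := iUnion_subset fun n => (hp n).1
  have hCdir : Dir Δ C := by
    refine ⟨⟨a₀, mem_iUnion.2 ⟨0, by rw [hf0]; simp⟩⟩, ?_, hCA.trans hA.sub⟩
    intro s hs t ht
    obtain ⟨i, hi⟩ := mem_iUnion.1 hs
    obtain ⟨j, hj⟩ := mem_iUnion.1 ht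
    have hi' := hmonC (le_max_left i j) hi
    have hj' := hmonC (le_max_right i j) hj
    exact ⟨m s t, mem_iUnion.2 ⟨max i j + 1, (hr _).2.2.1 s hi' t hj'⟩,
      (hm s (hCA hs) t (hCA ht)).2⟩
  refine ⟨C, hCA, countable_iUnion fun n => (hp n).2.1, hCdir, ?_⟩
  obtain ⟨t, -, hlet, hlim⟩ := S.sup (fun n => (f n).2) hmonT fun n => (hp n).2.2.1
  have hupC : ∀ c ∈ C, c ≤ t := by
    intro c hc
    obtain ⟨n, hn⟩ := mem_iUnion.1 hc
    exact ((hp n).2.2.2.2 c hn).trans (hlet n)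
  have hclosed : IsClosed {x | lim P C x = lim P A x} :=
    isClosed_eq (lim P C).continuous (lim P A).continuous
  have h1 : ∀ n x, lim P C (P (f n).2 x) = lim P A (P (f n).2 x) := by
    intro n x
    have hsub : closure (Y (f n).2) ⊆ {x | lim P C x = lim P A x} := by
      refine closure_minimal (fun y hy => ?_) hclosed
      refine hE y C hCdir hCA ?_
      exact ((hr n).2.2.2 y hy).trans (subset_iUnion (fun n => (f n).1) (n + 1))
    exact hsub (hY _ ⟨x, rfl⟩)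
  have h2 : ∀ x, lim P C (P t x) = lim P A (P t x) := fun x =>
    hclosed.mem_of_tendsto (hlim x) (Eventually.of_forall fun n => h1 n x)
  have h3 : ∀ x, ψ (P t x) = ψ x := fun x => S.funFix_mono (((hp 0).2.2.2.1).trans (hlet 0)) ht₀ x
  intro x
  rw [← S.lim_upper hCdir hupC x, h2, hψ, h3]

end Sys

end Pool.Agent.K7.H85.PS
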