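import Pool.Agent.K7.H85.PS.Dec

/-!
# The induction on the density

Helper file for MP_927f17_an.
-/

set_option autoImplicit false
set_option linter.unusedSectionVars false

open Set Filter Topology Cardinal

universe u v

namespace Pool.Agent.K7.H85.PS

variable {𝕜 : Type*} [RCLike 𝕜] {X : Type*} [NormedAddCommGroup X] [NormedSpace 𝕜 X]
  [CompleteSpace X] {Γ : Type*} [PartialOrder Γ] {P : Γ → X →L[𝕜] X} {Δ : Set Γ} {K : ℝ}

namespace Sys

variable (S : Sys P Δ K)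

theorem exists_good_small (hfin : FiniteDimensional 𝕜 ((X →L[𝕜] 𝕜) ⧸ S.D)) (κ : Cardinal.{u})
    (hκ : ℵ₀ < κ) :
    ∃ A, Dir Δ A ∧ (∃ κ' < κ, Le κ' A) ∧
      ∀ B, Dir Δ B → (∃ κ' < κ, Le κ' B) → A ⊆ B → ∀ ψ ∈ S.D, ψ ∘L lim P B ∈ S.D := by
  by_cases h : ℵ₁ < κ
  · obtain ⟨A, hA, hAle, hgood⟩ := exists_good.{u} S hfin
    exact ⟨A, hA, ⟨ℵ₁, h, hAle⟩, fun B hB _ hAB => hgood B hB hAB⟩
  · obtain ⟨s₀, -⟩ := S.cover 0
    obtain ⟨t₀, ht₀, -⟩ := S.cof s₀
    refine ⟨{t₀}, ⟨singleton_nonempty _, ?_, by simpa using ht₀⟩,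
      ⟨ℵ₀, hκ, Le.of_countable le_rfl (countable_singleton t₀)⟩, ?_⟩
    · rintro s rfl t rfl
      exact ⟨_, rfl, le_rfl, le_rfl⟩
    · rintro B hB ⟨κ', hκ', hBle⟩ - ψ hψ
      have h1 : κ' ≤ ℵ₀ := by
        have : κ' < ℵ₁ := hκ'.trans_le (not_lt.1 h)
        rwa [← succ_aleph0, Order.lt_succ_iff] at this
      obtain ⟨s, hs⟩ := S.lim_countable hB (hBle.mono_card h1).countable
      exact ⟨s, fun x => by
        rw [ContinuousLinearMap.comp_apply, ContinuousLinearMap.comp_apply, hs]⟩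

/-- The conclusion for a projection `R`. -/
def Concl (R : X →L[𝕜] X) : Prop :=
  ∃ M : Set X, M ⊆ range R ∧ range R ⊆ closure (Submodule.span 𝕜 M : Set X) ∧
    ∀ ψ : X →L[𝕜] 𝕜, ψ ∘L R ∈ S.D ↔ {y ∈ M | ψ y ≠ 0}.Countable

/-- The case of a separable range. -/
lemma concl_of_countable {R : X →L[𝕜] X} (hR : ∀ x, R (R x) = R x)
    (hRD : ∀ ψ ∈ S.D, ψ ∘L R ∈ S.D) {T : Set X} (hT : T.Countable) (hRT : range R ⊆ closure T) :
    S.Concl R := by
  have hdense : range R ⊆ closure (R '' T) := by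
    rintro _ ⟨x, rfl⟩
    rw [← hR x]
    exact image_closure_subset_closure_image R.continuous ⟨R x, hRT ⟨x, rfl⟩, rfl⟩
  refine ⟨R '' T, ?_, hdense.trans (closure_mono Submodule.subset_span), fun ψ => ?_⟩
  · rintro _ ⟨x, -, rfl⟩
    exact ⟨x, rfl⟩
  · have h2 : {y ∈ R '' T | ψ y ≠ 0}.Countable := (hT.image R).mono fun y hy => hy.1
    refine iff_of_true ?_ h2
    obtain ⟨s₀, -⟩ := S.cover 0
    obtain ⟨s, -, -, hs⟩ := S.exists_fix_set (hT.image R) s₀
    have hcl : IsClosed {y | P s y = y} := isClosed_eq (P s).continuous continuous_id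
    have h3 : ∀ x, P s (R x) = R x := fun x =>
      closure_minimal (show R '' T ⊆ {y | P s y = y} from fun y hy => hs y hy) hcl
        (hdense ⟨x, rfl⟩)
    have h4 : ψ ∘L R = (ψ ∘L P s) ∘L R := by
      ext x
      simp only [ContinuousLinearMap.comp_apply, h3]
    rw [h4]
    exact hRD _ (S.comp_mem ψ s)

end Sys

namespace Setup

variable {R : X →L[𝕜] X} {m : Γ → Γ → Γ} {A₀ : Set Γ} {I : Type*} [LinearOrder I] {p : I → Γ}

/-- Gluing the pieces. -/
theorem glue [WellFoundedLT I] [Nonempty I] (U : Setup P Δ K R m A₀ p)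
    (hRD : ∀ ψ ∈ U.S.D, ψ ∘L R ∈ U.S.D)
    (hgood : ∀ i L, L ⊆ Iic i → ∀ ψ ∈ U.S.D, ψ ∘L lim P (AL m A₀ p L) ∈ U.S.D)
    (h0 : U.S.Concl (E0 P R m A₀ p)) (hE : ∀ i, U.S.Concl (E P R m A₀ p i)) : U.S.Concl R := by
  classical
  obtain ⟨M₀, hM₀R, hM₀s, hM₀⟩ := h0
  choose M hMR hMs hM using hE
  let N : Set X := M₀ ∪ ⋃ i, M i
  have hN₀ : M₀ ⊆ N := subset_union_left
  have hNi : ∀ i, M i ⊆ N := fun i => (subset_iUnion M i).trans subset_union_right
  have hNR : N ⊆ range R := by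
    refine union_subset ?_ (iUnion_subset fun i => ?_)
    · intro y hy
      obtain ⟨x, rfl⟩ := hM₀R hy
      exact ⟨_, U.R_E0 x⟩
    · intro y hy
      obtain ⟨x, rfl⟩ := hMR i hy
      exact ⟨_, U.R_E i x⟩
  have hRN : ∀ y ∈ N, R y = y := by
    intro y hy
    obtain ⟨x, rfl⟩ := hNR hy
    exact U.idem x
  refine ⟨N, hNR, ?_, fun ψ => ⟨fun hψ => ?_, fun hψ => ?_⟩⟩
  · -- the span is dense
    rintro _ ⟨x, rfl⟩
    have hZ : IsClosed ((Submodule.span 𝕜 N).topologicalClosure : Set X) :=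
      (Submodule.span 𝕜 N).isClosed_topologicalClosure
    have h1 : R x ∈ (Submodule.span 𝕜 N).topologicalClosure := by
      refine U.mem_of_pieces hZ ?_ fun i => ?_
      · exact closure_mono (Submodule.span_mono hN₀) (hM₀s ⟨x, rfl⟩)
      · exact closure_mono (Submodule.span_mono (hNi i)) (hMs i ⟨x, rfl⟩)
    exact h1
  · -- functionals in `D` have countable support
    set d : X →L[𝕜] 𝕜 := ψ ∘L R with hd
    have hdR : ∀ x, d (R x) = d x := fun x => by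
      simp only [hd, ContinuousLinearMap.comp_apply, U.idem]
    have hdN : ∀ y ∈ N, d y = ψ y := fun y hy => by
      simp only [hd, ContinuousLinearMap.comp_apply, hRN y hy]
    have hgood' : ∀ i L, L ⊆ Iio i → ∀ ψ ∈ U.S.D, ψ ∘L lim P (AL m A₀ p L) ∈ U.S.D :=
      fun i L hL => hgood i L (hL.trans Iio_subset_Iic_self)
    have hV := U.countable_support hdR hψ hgood'
    have hpres0 : ψ ∘L E0 P R m A₀ p ∈ U.S.D := by
      have h1 : ψ ∘L E0 P R m A₀ p = (d ∘L lim P (AL m A₀ p ∅)) ∘L R := by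
        ext x
        simp only [hd, ContinuousLinearMap.comp_apply, E0_apply]
        rw [← U.lim_comm, U.idem]
      rw [h1]
      obtain ⟨i₀⟩ := (inferInstance : Nonempty I)
      exact hRD _ (hgood i₀ _ (empty_subset _) d hψ)
    have hpres : ∀ i, ψ ∘L E P R m A₀ p i ∈ U.S.D := by
      intro i
      have h1 : ψ ∘L E P R m A₀ p i = (d ∘L lim P (AL m A₀ p (Iic i))) ∘L R -
          (d ∘L lim P (AL m A₀ p (Iio i))) ∘L R := by
        ext x
        simp only [hd, ContinuousLinearMap.comp_apply, E_apply, map_sub, sub_apply]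
        rw [← U.lim_comm, ← U.lim_comm, U.idem]
      rw [h1]
      exact U.S.D.sub_mem (hRD _ (hgood i _ Subset.rfl d hψ))
        (hRD _ (hgood i _ Iio_subset_Iic_self d hψ))
    have hsub : {y ∈ N | ψ y ≠ 0} ⊆ {y ∈ M₀ | ψ y ≠ 0} ∪
        ⋃ i ∈ {i | ∃ x, d (E P R m A₀ p i x) ≠ 0}, {y ∈ M i | ψ y ≠ 0} := by
      rintro y ⟨hy | hy, hne⟩
      · exact Or.inl ⟨hy, hne⟩
      · obtain ⟨i, hi⟩ := mem_iUnion.1 hy
        refine Or.inr (mem_iUnion₂.2 ⟨i, ?_, hi, hne⟩)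
        obtain ⟨x, rfl⟩ := hMR i hi
        exact ⟨x, by rwa [hdN _ (hNi i hi)]⟩
    exact (((hM₀ ψ).1 hpres0).union (hV.biUnion fun i _ => (hM i ψ).1 (hpres i))).mono hsub
  · -- functionals with countable support are in `D`
    have hs0 : {y ∈ M₀ | ψ y ≠ 0} ⊆ {y ∈ N | ψ y ≠ 0} := fun y hy => ⟨hN₀ hy.1, hy.2⟩
    have hsi : ∀ i, {y ∈ M i | ψ y ≠ 0} ⊆ {y ∈ N | ψ y ≠ 0} := fun i y hy =>
      ⟨hNi i hy.1, hy.2⟩
    have h1 : ψ ∘L E0 P R m A₀ p ∈ U.S.D := (hM₀ ψ).2 (hψ.mono hs0)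
    have h2 : ∀ i, ψ ∘L E P R m A₀ p i ∈ U.S.D := fun i => (hM i ψ).2 (hψ.mono (hsi i))
    set V : Set I := {i | ∃ x, ψ (E P R m A₀ p i x) ≠ 0} with hV
    have h3 : ∀ i ∈ V, ∃ y ∈ M i, ψ y ≠ 0 := by
      rintro i ⟨x, hx⟩
      by_contra hno
      push Not at hno
      apply hx
      have hsp : Submodule.span 𝕜 (M i) ≤ LinearMap.ker (ψ : X →ₗ[𝕜] 𝕜) :=
        Submodule.span_le.2 fun y hy => hno y hy
      have hcl : IsClosed ((LinearMap.ker (ψ : X →ₗ[𝕜] 𝕜) : Submodule 𝕜 X) : Set X) :=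
        ψ.isClosed_ker
      exact closure_minimal hsp hcl (hMs i ⟨x, rfl⟩)
    choose! y hyM hyψ using h3
    have hVc : V.Countable := by
      refine MapsTo.countable_of_injOn (f := y) (t := {y ∈ N | ψ y ≠ 0})
        (fun i hi => ⟨hNi i (hyM i hi), hyψ i hi⟩) ?_ hψ
      have hzero : ∀ i ∈ V, ∀ j ∈ V, i < j → y i ≠ y j := by
        intro i hi j hj hij heq
        obtain ⟨a, ha⟩ := hMR i (hyM i hi)
        obtain ⟨b, hb⟩ := hMR j (hyM j hj)
        apply hyψ j hj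
        have e1 : E P R m A₀ p j (y i) = 0 := by rw [← ha, U.E_E hij]
        have e2 : E P R m A₀ p j (y j) = y j := by rw [← hb, U.E_idem]
        rw [← e2, ← heq, e1, map_zero]
      intro i hi j hj heq
      rcases lt_trichotomy i j with h | h | h
      · exact absurd heq (hzero i hi j hj h)
      · exact h
      · exact absurd heq.symm (hzero j hj i hi h)
    obtain ⟨s₀, -⟩ := U.S.cover 0
    obtain ⟨s, -, -, hs⟩ := U.S.exists_funFix_set
      (Ψ := {ψ ∘L E0 P R m A₀ p} ∪ (fun i => ψ ∘L E P R m A₀ p i) '' V)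
      ((countable_singleton _).union (hVc.image _)) (by
        rintro φ (rfl | ⟨i, -, rfl⟩)
        · exact h1
        · exact h2 i) s₀
    refine ⟨s, fun x => ?_⟩
    have hz0 : ψ (E0 P R m A₀ p (P s x - x)) = 0 := by
      have := hs _ (Or.inl rfl) x
      rw [map_sub, map_sub, sub_eq_zero]
      exact this
    have hz : ∀ i, ψ (E P R m A₀ p i (P s x - x)) = 0 := by
      intro i
      by_cases hi : i ∈ V
      · have := hs _ (Or.inr ⟨i, hi, rfl⟩) x
        rw [map_sub, map_sub, sub_eq_zero]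
        exact this
      · by_contra hne
        exact hi ⟨_, hne⟩
    have hcl : IsClosed ((LinearMap.ker (ψ : X →ₗ[𝕜] 𝕜) : Submodule 𝕜 X) : Set X) :=
      ψ.isClosed_ker
    have h5 : R (P s x - x) ∈ LinearMap.ker (ψ : X →ₗ[𝕜] 𝕜) :=
      U.mem_of_pieces hcl (LinearMap.mem_ker.2 hz0) fun i => LinearMap.mem_ker.2 (hz i)
    have h6 : ψ (R (P s x - x)) = 0 := LinearMap.mem_ker.1 h5
    rw [map_sub, map_sub, sub_eq_zero] at h6
    exact h6

end Setup

/-- The range of a limit projection is small. -/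
lemma small_range (S : Sys P Δ K) {κ : Cardinal.{u}} (hκ : ℵ₀ ≤ κ) {A : Set Γ} (hA : Dir Δ A)
    (hle : Le κ A) : ∃ T : Set X, Le κ T ∧ ∀ x, lim P A x ∈ closure T := by
  have hdense : ∀ t, ∃ Y : Set X, Y.Countable ∧ range (P t) ⊆ closure Y := fun t => S.sep t
  choose Y hYc hY using hdense
  obtain ⟨J, f, hf, hJ⟩ := hle
  refine ⟨⋃ j, Y (f j), Le.iUnion hκ hJ fun j => Le.of_countable hκ (hYc _), fun x => ?_⟩
  refine closure_minimal ?_ isClosed_closure (S.lim_mem_closure hA x)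
  refine iUnion₂_subset fun s hs => ?_
  obtain ⟨j, rfl⟩ := hf hs
  exact (hY (f j)).trans (closure_mono (subset_iUnion (fun j => Y (f j)) j))

/-- **The induction on the density.** -/
theorem main_ind (S : Sys P Δ K) (hfin : FiniteDimensional 𝕜 ((X →L[𝕜] 𝕜) ⧸ S.D))
    (κ : Cardinal.{u}) : ∀ R : X →L[𝕜] X, (∀ x, R (R x) = R x) → (∀ ψ ∈ S.D, ψ ∘L R ∈ S.D) →
      (∃ T : Set X, Le κ T ∧ range R ⊆ closure T) → S.Concl R := by
  induction κ using WellFoundedLT.induction with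
  | ind κ IH =>
  rintro R hR hRD ⟨T, hT, hRT⟩
  by_cases hκ : κ ≤ ℵ₀
  · exact S.concl_of_countable hR hRD (hT.mono_card hκ).countable hRT
  rw [not_le] at hκ
  have h0κ : ℵ₀ ≤ κ := hκ.le
  -- the commuting system
  have S' : Sys P (commSet P Δ R) K := S.comm hRD
  have hfin' : FiniteDimensional 𝕜 ((X →L[𝕜] 𝕜) ⧸ S'.D) := hfin
  obtain ⟨A₀, hA₀, ⟨κ₀, hκ₀, hA₀le⟩, hgood⟩ := S'.exists_good_small hfin' κ hκ
  obtain ⟨m, hm⟩ := S'.exists_op
  obtain ⟨I, _, _, hI, hIio⟩ := exists_wo κ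
  have hIne : Nonempty I := by
    rw [← mk_ne_zero_iff, hI]
    exact (aleph0_pos.trans hκ).ne'
  -- a dense family in the range of `R`
  obtain ⟨J, f, hf, hJ⟩ := hT
  obtain ⟨e⟩ : Nonempty (J ↪ I) := by
    rw [← Cardinal.le_def, hI]
    exact hJ
  let x : I → X := fun i => R (Function.extend e f 0 i)
  have hxT : R '' T ⊆ range x := by
    rintro _ ⟨y, hy, rfl⟩
    obtain ⟨j, rfl⟩ := hf hy
    refine ⟨e j, ?_⟩
    simp only [x]
    rw [e.injective.extend_apply]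
  have hxdense : range R ⊆ closure (range x) := by
    rintro _ ⟨y, rfl⟩
    rw [← hR y]
    exact closure_mono hxT
      (image_closure_subset_closure_image R.continuous ⟨R y, hRT ⟨y, rfl⟩, rfl⟩)
  have hp : ∀ i, ∃ s ∈ commSet P Δ R, P s (x i) = x i := fun i => by
    obtain ⟨s, hs⟩ := S'.cover (x i)
    obtain ⟨t, ht, hst⟩ := S'.cof s
    exact ⟨t, ht, S'.fix_mono hst hs⟩
  choose p hpΔ hp using hp
  have hdir : ∀ L : Set I, Dir (commSet P Δ R) (AL m A₀ p L) := fun L =>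
    dir_hull hm (union_subset hA₀.sub (by rintro _ ⟨i, -, rfl⟩; exact hpΔ i))
      (hA₀.ne.mono subset_union_left)
  have U : Setup P (commSet P Δ R) K R m A₀ p :=
    { S := S'
      op := hm
      ne := hA₀.ne
      sub := hA₀.sub
      pΔ := hpΔ
      comm := fun s hs => hs.2
      idem := hR
      full := by
        have hcl : IsClosed {y | lim P (AL m A₀ p Set.univ) y = y} :=
          isClosed_eq (lim P _).continuous continuous_id
        intro y
        refine closure_minimal ?_ hcl (hxdense ⟨y, rfl⟩)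
        rintro _ ⟨i, rfl⟩
        exact S'.lim_fix (hdir _) (subset_hull m _ (Or.inr ⟨i, mem_univ i, rfl⟩)) (hp i) }
  -- the sizes
  have hsmall : ∀ i, ∃ κ' < κ, ℵ₀ ≤ κ' ∧ ∀ L ⊆ Iic i, Le κ' (AL m A₀ p L) := by
    intro i
    have h1 : #(Iic i) < κ := by
      have h2 : #(Iic i) ≤ #(Iio i) + 1 := by
        rw [← Iio_insert]
        exact mk_insert_le
      exact h2.trans_lt (add_lt_of_lt h0κ (hIio i) (one_lt_aleph0.trans hκ))
    refine ⟨max ℵ₀ (max κ₀ #(Iic i)), max_lt hκ (max_lt hκ₀ h1), le_max_left _ _,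
      fun L hL => Le.hull (le_max_left _ _) m (Le.union (le_max_left _ _)
        (hA₀le.mono_card ((le_max_left _ _).trans (le_max_right _ _))) ?_)⟩
    refine Le.image ?_ p
    refine ⟨Iic i, Subtype.val, ?_, (le_max_right _ _).trans (le_max_right _ _)⟩
    rw [Subtype.range_coe]
    exact hL
  have hA₀AL : ∀ L, A₀ ⊆ AL m A₀ p L := fun L => subset_union_left.trans (subset_hull m _)
  have hgood' : ∀ i L, L ⊆ Iic i → ∀ ψ ∈ U.S.D, ψ ∘L lim P (AL m A₀ p L) ∈ U.S.D := by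
    intro i L hL
    obtain ⟨κ', hκ', -, hle⟩ := hsmall i
    exact hgood _ (hdir L) ⟨κ', hκ', hle L hL⟩ (hA₀AL L)
  have hRD' : ∀ ψ ∈ U.S.D, ψ ∘L R ∈ U.S.D := hRD
  -- the induction hypothesis for the pieces
  have hpieces : ∀ (i : I) (L : Set I) (F : X →L[𝕜] X), L ⊆ Iic i → (∀ y, F (F y) = F y) →
      (∀ ψ ∈ S.D, ψ ∘L F ∈ S.D) → (∀ y, lim P (AL m A₀ p L) (F y) = F y) → S.Concl F := by
    intro i L F hL hF hFD hFL
    obtain ⟨κ', hκ', h0, hle⟩ := hsmall i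
    obtain ⟨T', hT', hcl⟩ := small_range S' h0 (hdir L) (hle L hL)
    refine IH κ' hκ' F hF hFD ⟨T', hT', ?_⟩
    rintro _ ⟨y, rfl⟩
    rw [← hFL y]
    exact hcl _
  have h0 : U.S.Concl (E0 P R m A₀ p) := by
    obtain ⟨i₀⟩ := hIne
    refine hpieces i₀ ∅ _ (empty_subset _) U.E0_idem ?_ ?_
    · intro ψ hψ
      have : ψ ∘L E0 P R m A₀ p = (ψ ∘L lim P (AL m A₀ p ∅)) ∘L R := rfl
      rw [this]
      exact hRD _ (hgood' i₀ ∅ (empty_subset _) ψ hψ)
    · intro y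
      rw [E0_apply]
      exact U.lim_sub Subset.rfl _
  have hE : ∀ i, U.S.Concl (E P R m A₀ p i) := by
    intro i
    refine hpieces i (Iic i) _ Subset.rfl (U.E_idem i) ?_ ?_
    · intro ψ hψ
      have : ψ ∘L E P R m A₀ p i = (ψ ∘L lim P (AL m A₀ p (Iic i))) ∘L R -
          (ψ ∘L lim P (AL m A₀ p (Iio i))) ∘L R := by
        ext y
        simp only [ContinuousLinearMap.comp_apply, E_apply, map_sub, sub_apply]
      rw [this]
      exact S.D.sub_mem (hRD _ (hgood' i _ Subset.rfl ψ hψ))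
        (hRD _ (hgood' i _ Iio_subset_Iic_self ψ hψ))
    · intro y
      rw [E_apply, map_sub, U.lim_sub Subset.rfl, U.lim_sup Iio_subset_Iic_self]
  exact U.glue hRD' hgood' h0 hE

end Pool.Agent.K7.H85.PS
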